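import Pool.Agent.Lib_helper28.OW.S4a

/-! S4 for `5 ≤ K`, part b: the recolouring which excludes three boundary vertices in a clique. -/

set_option autoImplicit false
set_option linter.unusedSectionVars false
set_option linter.unusedVariables false

open scoped Classical
open Finset
open Pool.Agent.O2 Pool.Agent.O3

namespace Pool.Agent.OW28G

open Pool.Agent.OW28

variable {V : Type}

/-- uniqueness of the neighbour outside a clique -/
theorem out_uniq {K : ℕ} {G : SimpleGraph V} {W T : Finset V} (hT : T ⊆ W) (hq : Clq G T)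
    (hk : T.card = K) (hK : 1 ≤ K) {t : V} (ht : t ∈ T) (hd : dg G W t = K) {b c : V}
    (hb : b ∈ W) (hc : c ∈ W) (hbT : b ∉ T) (hcT : c ∉ T) (hab : G.Adj t b)
    (hac : G.Adj t c) : b = c := by
  obtain ⟨z, -, -, h⟩ := out_one hT hq hk hK ht hd
  exact (h b hb hab hbT).trans (h c hc hac hcT).symm

/-- a `K`-clique sees all colours -/
theorem clq_all_col {K : ℕ} {G : SimpleGraph V} {T : Finset V} (hq : Clq G T)
    (hk : T.card = K) {φ : V → Fin K} (hφ : PC G T φ) (c : Fin K) : ∃ t ∈ T, φ t = c := by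
  have h : T.image φ = univ := by
    apply eq_univ_of_card
    rw [Fintype.card_fin, card_image_of_injOn, hk]
    intro a ha b hb he
    by_contra hab
    exact hφ a ha b hb (hq a ha b hb hab) he
  have : c ∈ T.image φ := h ▸ mem_univ c
  obtain ⟨t, ht, hc⟩ := mem_image.1 this
  exact ⟨t, ht, hc⟩

theorem no_three {K : ℕ} (hK : 5 ≤ K) {G : SimpleGraph V} {W T B : Finset V} {x y w : V}
    (hT : T ⊆ W) (hq : Clq G T) (hk : T.card = K) (hd : ∀ t ∈ T, dg G W t = K)
    (hx : x ∈ B) (hy : y ∈ B) (hxT : x ∉ T) (hyT : y ∉ T)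
    (hw : ∀ t ∈ T, t ∉ B → G.Adj t w) (hwW : w ∈ W) (hwT : w ∉ T)
    (h3 : ∀ φ : V → Fin K, PC G W φ → (B.image φ).card = 3)
    (hxy : ∀ φ : V → Fin K, PC G W φ → φ x ≠ φ y)
    (hex : ∃ φ : V → Fin K, PC G W φ) (hD : (T ∩ B).card = 3) : False := by
  obtain ⟨φ, hφ⟩ := hex
  obtain ⟨d1, hd1, he1⟩ := clq_all_col hq hk (pc_sub hT hφ) (φ w)
  have hd1B : d1 ∈ B := by
    by_contra h
    exact hφ d1 (hT hd1) w hwW (hw d1 hd1 h) he1
  have hd1D : d1 ∈ T ∩ B := mem_inter.2 ⟨hd1, hd1B⟩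
  have hz : ∀ t, ∃ z, t ∈ T → z ∈ W \ T ∧ G.Adj t z ∧ ∀ y ∈ W, G.Adj t y → y ∉ T → y = z := by
    intro t
    by_cases ht : t ∈ T
    · obtain ⟨z, h1, h2, h3⟩ := out_one hT hq hk (by omega) ht (hd t ht)
      exact ⟨z, fun _ => ⟨h1, h2, h3⟩⟩
    · exact ⟨t, fun h => absurd h ht⟩
  choose z hz using hz
  -- a colour of `x` or `y` which is not the colour of `w`
  obtain ⟨x0, hx0B, hx0T, hx0⟩ : ∃ x0 ∈ B, x0 ∉ T ∧ φ x0 ≠ φ w := by
    by_cases h : φ x = φ w
    · exact ⟨y, hy, hyT, fun h' => hxy φ hφ (h.trans h'.symm)⟩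
    · exact ⟨x, hx, hxT, h⟩
  have hzd1 : φ (z d1) ≠ φ w := by
    rw [← he1]
    exact (hφ d1 (hT hd1) (z d1) (mem_sdiff.1 (hz d1 hd1).1).1 (hz d1 hd1).2.1).symm
  have hfree : 1 < (univ \ ({φ w, φ x0, φ (z d1)} : Finset (Fin K))).card := by
    rw [card_sdiff_of_subset (subset_univ _), card_univ, Fintype.card_fin]
    have : ({φ w, φ x0, φ (z d1)} : Finset (Fin K)).card ≤ 3 := card_le_three
    omega
  obtain ⟨a, ha, b, hb, hab⟩ := one_lt_card.1 hfree
  have ha' := (mem_sdiff.1 ha).2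
  have hb' := (mem_sdiff.1 hb).2
  simp only [mem_insert, mem_singleton, not_or] at ha' hb'
  obtain ⟨ha1, ha2, ha3⟩ := ha'
  obtain ⟨hb1, hb2, hb3⟩ := hb'
  have hQc : ({φ w, a, b} : Finset (Fin K)).card = 3 := by
    rw [card_insert_of_notMem, card_insert_of_notMem, card_singleton]
    · simpa using hab
    · simp [Ne.symm ha1, Ne.symm hb1]
  obtain ⟨g, hg, hgi⟩ := sdr (T ∩ B) ({φ w, a, b} : Finset (Fin K)) (by rw [hD, hQc])
    (fun d => φ (z d)) (by
      rintro ⟨c, hc, hcc⟩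
      have h1 := hcc d1 hd1D
      simp only [mem_insert, mem_singleton] at hc
      rcases hc with rfl | rfl | rfl
      · exact hzd1 h1
      · exact ha3 h1.symm
      · exact hb3 h1.symm)
  have hgim : (T ∩ B).image g = ({φ w, a, b} : Finset (Fin K)) := by
    apply eq_of_subset_of_card_le
    · intro c hc
      obtain ⟨p, hp, rfl⟩ := mem_image.1 hc
      exact (hg p hp).1
    · rw [card_image_of_injOn, hD, hQc]
      intro p hp p' hp' he
      exact hgi p hp p' hp' he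
  have hPQ : (T \ B).card = (univ \ ({φ w, a, b} : Finset (Fin K))).card := by
    rw [card_sdiff_of_subset (subset_univ _), card_univ, Fintype.card_fin, hQc]
    have e2 := card_sdiff_add_card_inter T B
    omega
  have hPne : (T \ B).Nonempty := by
    rw [← card_pos]
    have e2 := card_sdiff_add_card_inter T B
    omega
  obtain ⟨e, he, hei⟩ := sdr (T \ B) _ hPQ (fun _ => φ w) (by
    rintro ⟨c, hc, hcc⟩
    obtain ⟨p, hp⟩ := hPne
    have := hcc p hp
    exact (mem_sdiff.1 hc).2 (by simp [this]))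
  set g' : V → Fin K := fun v => if v ∈ B then g v else e v with hg'
  have gB : ∀ v ∈ B, g' v = g v := fun v hv => if_pos hv
  have gn : ∀ v, v ∉ B → g' v = e v := fun v hv => if_neg hv
  have hgQ : ∀ v ∈ T, v ∈ B → g v ∈ ({φ w, a, b} : Finset (Fin K)) ∧ g v ≠ φ (z v) :=
    fun v hv hvB => hg v (mem_inter.2 ⟨hv, hvB⟩)
  have heQ : ∀ v ∈ T, v ∉ B → e v ∉ ({φ w, a, b} : Finset (Fin K)) :=
    fun v hv hvB => (mem_sdiff.1 (he v (mem_sdiff.2 ⟨hv, hvB⟩)).1).2
  have hψ : PC G W (mix T g' φ) := by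
    refine mix_pc (pc_sub sdiff_subset hφ) ?_ ?_
    · intro p hp p' hp' hne he'
      by_cases h1 : p ∈ B <;> by_cases h2 : p' ∈ B
      · rw [gB p h1, gB p' h2] at he'
        exact hne (hgi p (mem_inter.2 ⟨hp, h1⟩) p' (mem_inter.2 ⟨hp', h2⟩) he')
      · rw [gB p h1, gn p' h2] at he'
        exact heQ p' hp' h2 (he' ▸ (hgQ p hp h1).1)
      · rw [gn p h1, gB p' h2] at he'
        exact heQ p hp h1 (he' ▸ (hgQ p' hp' h2).1)
      · rw [gn p h1, gn p' h2] at he'
        exact hne (hei p (mem_sdiff.2 ⟨hp, h1⟩) p' (mem_sdiff.2 ⟨hp', h2⟩) he')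
    · intro p hp v hv hvT hadj
      by_cases h1 : p ∈ B
      · rw [gB p h1, (hz p hp).2.2 v hv hadj hvT]
        exact (hgQ p hp h1).2
      · have : v = w := out_uniq hT hq hk (by omega) hp (hd p hp) hv hwW hvT hwT hadj
          (hw p hp h1)
        rw [gn p h1, this]
        intro h
        exact heQ p hp h1 (by rw [h]; simp)
  have hcnt := h3 _ hψ
  have hsub : insert (φ x0) ({φ w, a, b} : Finset (Fin K)) ⊆ B.image (mix T g' φ) := by
    intro c hc
    rcases mem_insert.1 hc with rfl | hc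
    · exact mem_image.2 ⟨x0, hx0B, mix_not hx0T⟩
    · rw [← hgim] at hc
      obtain ⟨p, hp, rfl⟩ := mem_image.1 hc
      obtain ⟨hpT, hpB⟩ := mem_inter.1 hp
      exact mem_image.2 ⟨p, hpB, (mix_mem hpT).trans (gB p hpB)⟩
  have h4 : (insert (φ x0) ({φ w, a, b} : Finset (Fin K))).card = 4 := by
    rw [card_insert_of_notMem, hQc]
    simp [hx0, Ne.symm ha2, Ne.symm hb2]
  have := card_le_card hsub
  omega

end Pool.Agent.OW28G
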