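import Pool.Agent.Lib_helper92.O3.B.Cb
import Pool.Agent.Lib_helper92.O3.B.Bc

/-! S4, part a: systems of distinct representatives, low vertices of a clique. -/

set_option autoImplicit false
set_option linter.unusedSectionVars false
set_option linter.unusedVariables false

open scoped Classical
open Finset
open Pool.Agent.O2 Pool.Agent.O3

namespace Pool.Agent.OW28

variable {V : Type}

/-- distinct representatives when every row forbids one colour -/
theorem sdr {α β : Type*} (P : Finset α) (Q : Finset β) (h : P.card = Q.card) (f : α → β)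
    (hn : ¬ ∃ c ∈ Q, ∀ p ∈ P, f p = c) :
    ∃ g : α → β, (∀ p ∈ P, g p ∈ Q ∧ g p ≠ f p) ∧
      ∀ p ∈ P, ∀ p' ∈ P, g p = g p' → p = p' := by
  classical
  have hall : ∀ s : Finset {p // p ∈ P},
      s.card ≤ (s.biUnion fun p => Q.erase (f p.1)).card := by
    intro s
    rcases s.eq_empty_or_nonempty with rfl | ⟨p, hp⟩
    · simp
    have hsP : s.card ≤ P.card := by
      have := Finset.card_le_univ s
      simpa using this
    have hsub : Q.erase (f p.1) ⊆ s.biUnion fun p => Q.erase (f p.1) := fun c hc =>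
      mem_biUnion.2 ⟨p, hp, hc⟩
    by_cases hc : f p.1 ∈ Q
    · by_cases hs : s.card ≤ Q.card - 1
      · refine hs.trans ?_
        rw [← card_erase_of_mem hc]
        exact card_le_card hsub
      · have hQ : 0 < Q.card := card_pos.2 ⟨_, hc⟩
        have hsu : s = univ := by
          apply Finset.eq_univ_of_card
          have : Fintype.card {p // p ∈ P} = P.card := by simp
          omega
        obtain ⟨p', hp', hne⟩ : ∃ p' ∈ P, f p' ≠ f p.1 := by
          by_contra hcon
          push Not at hcon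
          exact hn ⟨f p.1, hc, hcon⟩
        refine hsP.trans (h.le.trans (card_le_card fun c hcQ => ?_))
        by_cases hcp : c = f p.1
        · refine mem_biUnion.2 ⟨⟨p', hp'⟩, by rw [hsu]; exact mem_univ _, ?_⟩
          rw [hcp]
          exact mem_erase.2 ⟨hne.symm, hc⟩
        · exact hsub (mem_erase.2 ⟨hcp, hcQ⟩)
    · refine hsP.trans (h.le.trans (card_le_card ?_))
      rw [erase_eq_of_notMem hc] at hsub
      exact hsub
  obtain ⟨g, hg, hgm⟩ := (Finset.all_card_le_biUnion_card_iff_exists_injective _).1 hall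
  refine ⟨fun p => if hp : p ∈ P then g ⟨p, hp⟩ else f p, ?_, ?_⟩
  · intro p hp
    have := mem_erase.1 (hgm ⟨p, hp⟩)
    simp only [hp, dif_pos]
    exact ⟨this.2, this.1⟩
  · intro p hp p' hp' he
    simp only [hp, hp', dif_pos] at he
    have := hg he
    simpa using this

/-- the degree inside a clique -/
theorem clq_dg {G : SimpleGraph V} {T : Finset V} (hq : Clq G T) {t : V} (ht : t ∈ T) :
    dg G T t = T.card - 1 := by
  rw [← card_erase_of_mem ht]
  unfold dg
  congr 1
  ext y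
  simp only [mem_filter, mem_erase]
  constructor
  · rintro ⟨h1, h2⟩
    exact ⟨h2.ne', h1⟩
  · rintro ⟨h1, h2⟩
    exact ⟨h2, hq t ht y h2 h1.symm⟩

/-- a vertex of a `K`-clique which has degree `K` in `W` has exactly one neighbour outside -/
theorem out_one {K : ℕ} {G : SimpleGraph V} {W T : Finset V} (hT : T ⊆ W) (hq : Clq G T)
    (hk : T.card = K) (hK : 1 ≤ K) {t : V} (ht : t ∈ T) (hd : dg G W t = K) :
    ∃ z ∈ W \ T, G.Adj t z ∧ ∀ y ∈ W, G.Adj t y → y ∉ T → y = z := by
  have h1 : dg G W t = dg G T t + dg G (W \ T) t := by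
    rw [← dg_union disjoint_sdiff, union_sdiff_of_subset hT]
  rw [hd, clq_dg hq ht, hk] at h1
  have h2 : dg G (W \ T) t = 1 := by omega
  obtain ⟨z, hz⟩ := card_eq_one.1 h2
  have hzm : z ∈ (W \ T).filter fun y => G.Adj t y := by rw [hz]; exact mem_singleton_self _
  refine ⟨z, (mem_filter.1 hzm).1, (mem_filter.1 hzm).2, fun y hy ha hyT => ?_⟩
  have : y ∈ (W \ T).filter fun y => G.Adj t y := mem_filter.2 ⟨mem_sdiff.2 ⟨hy, hyT⟩, ha⟩
  rw [hz] at this
  exact mem_singleton.1 this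

/-- any proper subset of a critical set has a colouring in which two given non-adjacent vertices
get different colours -/
def Add1 (G : SimpleGraph V) (S : Finset V) (K : ℕ) : Prop :=
  ∀ R ⊆ S, R ≠ S → ∀ p ∈ R, ∀ q ∈ R, p ≠ q → ¬ G.Adj p q →
    ∃ φ : V → Fin K, PC G R φ ∧ φ p ≠ φ q

/-- with adjacent vertices as well -/
theorem Add1.all {G : SimpleGraph V} {S : Finset V} {K : ℕ} (hK : 0 < K) (h : Add1 G S K)
    (hc : CrOn G S K) {R : Finset V} (hR : R ⊆ S) (hne : R ≠ S) {p q : V} (hp : p ∈ R)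
    (hq : q ∈ R) (hpq : p ≠ q) : ∃ φ : V → Fin K, PC G R φ ∧ φ p ≠ φ q := by
  by_cases ha : G.Adj p q
  · obtain ⟨x, hx, hxR⟩ : ∃ x ∈ S, x ∉ R := by
      by_contra hcon
      push Not at hcon
      exact hne (Subset.antisymm hR hcon)
    obtain ⟨φ, hφ⟩ := hc.pc hK hx
    have hsub : R ⊆ S.erase x := fun v hv =>
      mem_erase.2 ⟨fun he => hxR (he ▸ hv), hR hv⟩
    exact ⟨φ, pc_sub hsub hφ, hφ p (hsub hp) q (hsub hq) ha⟩
  · exact h R hR hne p hp q hq hpq ha

/-- `g` on `L`, `φ` elsewhere -/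
noncomputable def mix {K : ℕ} (L : Finset V) (g φ : V → Fin K) : V → Fin K :=
  fun v => if v ∈ L then g v else φ v

theorem mix_mem {K : ℕ} {L : Finset V} {g φ : V → Fin K} {v : V} (h : v ∈ L) :
    mix L g φ v = g v := if_pos h

theorem mix_not {K : ℕ} {L : Finset V} {g φ : V → Fin K} {v : V} (h : v ∉ L) :
    mix L g φ v = φ v := if_neg h

/-- changing a colouring on a set `L` -/
theorem mix_pc {K : ℕ} {G : SimpleGraph V} {W L : Finset V} {g φ : V → Fin K}
    (h1 : PC G (W \ L) φ) (h2 : ∀ a ∈ L, ∀ b ∈ L, a ≠ b → g a ≠ g b)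
    (h3 : ∀ a ∈ L, ∀ b ∈ W, b ∉ L → G.Adj a b → g a ≠ φ b) : PC G W (mix L g φ) := by
  intro a ha b hb hab
  by_cases haL : a ∈ L <;> by_cases hbL : b ∈ L
  · rw [mix_mem haL, mix_mem hbL]
    exact h2 a haL b hbL hab.ne
  · rw [mix_mem haL, mix_not hbL]
    exact h3 a haL b hb hbL hab
  · rw [mix_not haL, mix_mem hbL]
    exact (h3 b hbL a ha haL hab.symm).symm
  · rw [mix_not haL, mix_not hbL]
    exact h1 a (mem_sdiff.2 ⟨ha, haL⟩) b (mem_sdiff.2 ⟨hb, hbL⟩) hab

/-- the colours not used on a clique -/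
theorem card_unused {K : ℕ} {G : SimpleGraph V} {D : Finset V} {φ : V → Fin K}
    (hq : Clq G D) (hφ : PC G D φ) : (univ \ D.image φ).card = K - D.card := by
  rw [card_sdiff_of_subset (subset_univ _), card_univ, Fintype.card_fin,
    card_image_of_injOn]
  intro a ha b hb he
  by_contra hab
  exact hφ a ha b hb (hq a ha b hb hab) he

/-- the low vertices of a `K`-clique have a common neighbour outside the clique -/
theorem common_nbr {K : ℕ} {G : SimpleGraph V} {S T : Finset V} (hK : 1 ≤ K)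
    (hc : CrOn G S K) (ha : Add1 G S K) (hT : T ⊆ S) (hq : Clq G T) (hk : T.card = K)
    (hl : ∃ t ∈ T, dg G S t = K) :
    ∃ w ∈ S \ T, ∀ t ∈ T, dg G S t = K → G.Adj t w := by
  obtain ⟨t0, ht0, hd0⟩ := hl
  set L := T.filter fun t => dg G S t = K with hL
  have hz : ∀ t, ∃ z, t ∈ L → z ∈ S \ T ∧ G.Adj t z ∧ ∀ y ∈ S, G.Adj t y → y ∉ T → y = z := by
    intro t
    by_cases ht : t ∈ L
    · obtain ⟨z, h1, h2, h3⟩ := out_one hT hq hk hK (mem_filter.1 ht).1 (mem_filter.1 ht).2
      exact ⟨z, fun _ => ⟨h1, h2, h3⟩⟩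
    · exact ⟨t, fun h => absurd h ht⟩
  choose z hz using hz
  have h0L : t0 ∈ L := mem_filter.2 ⟨ht0, hd0⟩
  refine ⟨z t0, (hz t0 h0L).1, fun t ht hd => ?_⟩
  have htL : t ∈ L := mem_filter.2 ⟨ht, hd⟩
  by_contra hcon
  have hne : z t ≠ z t0 := fun h => hcon (h ▸ (hz t htL).2.1)
  have hLS : L ⊆ S := (filter_subset _ _).trans hT
  have hRne : S \ L ≠ S := by
    intro h
    have h' : t0 ∈ S := hT ht0
    rw [← h] at h'
    exact (mem_sdiff.1 h').2 h0L
  have hzR : ∀ t ∈ L, z t ∈ S \ L := fun t ht =>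
    mem_sdiff.2 ⟨(mem_sdiff.1 (hz t ht).1).1, fun h =>
      (mem_sdiff.1 (hz t ht).1).2 (mem_filter.1 h).1⟩
  obtain ⟨φ, hφ, hd'⟩ := ha.all (by omega) hc sdiff_subset hRne (hzR t htL) (hzR t0 h0L) hne
  have hTL : T \ L ⊆ S \ L := sdiff_subset_sdiff hT (Subset.refl _)
  have hqTL : Clq G (T \ L) := fun a ha b hb hab =>
    hq a (mem_sdiff.1 ha).1 b (mem_sdiff.1 hb).1 hab
  have hcard : L.card = (univ \ (T \ L).image φ).card := by
    have hLT : L ⊆ T := filter_subset _ _
    have h5 : L.card ≤ T.card := card_le_card hLT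
    rw [card_unused hqTL (pc_sub hTL hφ), card_sdiff_of_subset hLT, hk]
    omega
  obtain ⟨g, hg, hgi⟩ := sdr L _ hcard (fun t => φ (z t)) (by
    rintro ⟨c, -, hcc⟩
    exact hd' ((hcc t htL).trans (hcc t0 h0L).symm))
  refine hc.1 (cb_of_pc (mix_pc (L := L) (g := g) hφ (fun a ha b hb hab he =>
    hab (hgi a ha b hb he)) ?_))
  intro a haL b hb hbL hab
  by_cases hbT : b ∈ T
  · intro he
    have := (mem_sdiff.1 (hg a haL).1).2
    exact this (mem_image.2 ⟨b, mem_sdiff.2 ⟨hbT, hbL⟩, he.symm⟩)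
  · rw [(hz a haL).2.2 b hb hab hbT]
    exact (hg a haL).2

/-- no vertex outside a `K`-clique is adjacent to all but at most one of its vertices -/
def NoCE (G : SimpleGraph V) (S : Finset V) (K : ℕ) : Prop :=
  ∀ T ⊆ S, Clq G T → T.card = K → ∀ w ∈ S, w ∉ T → 2 ≤ (T.filter fun t => ¬ G.Adj w t).card

/-- a `K`-clique contains at least two vertices which are not low -/
theorem two_high {K : ℕ} {G : SimpleGraph V} {S T : Finset V} (hK : 2 ≤ K)
    (hc : CrOn G S K) (ha : Add1 G S K) (hce : NoCE G S K) (hT : T ⊆ S) (hq : Clq G T)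
    (hk : T.card = K) : 2 ≤ (T.filter fun t => dg G S t ≠ K).card := by
  by_cases hl : ∃ t ∈ T, dg G S t = K
  · obtain ⟨w, hw, hadj⟩ := common_nbr (by omega) hc ha hT hq hk hl
    refine (hce T hT hq hk w (mem_sdiff.1 hw).1 (mem_sdiff.1 hw).2).trans
      (card_le_card fun t ht => ?_)
    have ht' := mem_filter.1 ht
    exact mem_filter.2 ⟨ht'.1, fun hd => ht'.2 (hadj t ht'.1 hd).symm⟩
  · push Not at hl
    rw [filter_true_of_mem hl]
    omega

end Pool.Agent.OW28
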