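import Pool.Agent.Lib_helper63.OW.P2

/-!
# Absorption chains with an arbitrary table of lower bounds

The theorems of helper63's file P2 with an arbitrary function `Lf` in place of `Lt K`.
-/

set_option autoImplicit false
set_option linter.unusedSectionVars false
set_option linter.unusedVariables false

open scoped Classical
open Finset
open Pool.Agent.O2 (PC Cb CrOn pr ms dg nd addE cb_mono cb_sub cb_fin cb_of_pc pc_sub
  exists_crOn pr_sum pr_sum' pr_symm pr_mono dg_mono dg_union)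
open Pool.Agent.O3 (con hit Clq)

namespace Pool.Agent.OW28G

open Pool.Agent.OW

variable {V : Type}

section chain

variable {K : ℕ} {β : ℕ → ℤ} {Lf : ℕ → ℤ} {G : SimpleGraph V} {S : Finset V}

/-- no chain starts with too small a value -/
theorem no_deep (hS : CrOn G S K) (hI : IH K β S.card) (hK : 0 < K) (hbig : 2 ≤ Yy G K β S)
    (F1 : ∀ m t s : ℕ, 1 ≤ s → s ≤ K → s ≤ t →
      β m + β t + 2 ≤ β (m + t + 1 - s) + s * ((K : ℤ) + 2 - s))
    (F2w : ∀ m s : ℕ, 2 ≤ s → s ≤ K → K ≤ m → m < S.card - 1 →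
      (K : ℤ) + 1 + β (m - 1) + β (S.card - 1 - m + s - 1) ≤
        β (S.card - 1) + s * ((K : ℤ) + 2 - s) + 2)
    (F3 : ∀ m a s : ℕ, 2 ≤ s → s ≤ K → 1 ≤ a → K ≤ m → m + a < S.card - 1 →
      (K : ℤ) + 1 + β (m - 1) + β (a + s - 1) <
        β (m + a) + s * ((K : ℤ) + 2 - s) + Lf (m + a))
    (hL : ∀ R ⊆ S, R ≠ S → K + 1 ≤ R.card → Lf (R.card - 1) ≤ Yy G K β R)
    {u x y : V} (hu : u ∈ S) (hd : dg G S u ≤ K) (hux : G.Adj u x) (huy : G.Adj u y)
    (hne : x ≠ y) :
    ∀ k : ℕ, ∀ R ⊆ S, x ∈ R → y ∈ R → u ∉ R → K + 1 ≤ R.card → S.card - R.card ≤ k →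
      Yy G K β R ≤ (K : ℤ) - 1 + β (R.card - 2) - β (R.card - 1) → False := by
  intro k
  induction k with
  | zero =>
    intro R hR _ _ huR _ hk _
    have hne : R ≠ S := by
      rintro rfl
      exact huR hu
    have := card_lt_card (hR.ssubset_of_ne hne)
    omega
  | succ k ih =>
    intro R hR hxR hyR huR hc hk hle
    have hneS : R ≠ S := by
      rintro rfl
      exact huR hu
    have hlt := card_lt_card (hR.ssubset_of_ne hneS)
    obtain ⟨ψ, A, Z, h⟩ := step_any hS hK hR hneS hc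
    have h1 := h.Yy_le' hI hc
    have hcu := h.card_union
    have hA : 1 ≤ A.card := card_pos.2 h.neA
    have e3 : R.card - 2 = R.card - 1 - 1 := by omega
    by_cases huA : u ∈ A
    · obtain ⟨-, -, -, hs2⟩ := h.absorb_two huA hd hxR hyR hne hux huy
      by_cases hU : R ∪ A = S
      · rw [hU] at h1 hcu
        have h6 := F2w (R.card - 1) Z.card hs2 h.Z_le (by omega) (by omega)
        unfold cst at h1
        have e1 : R.card - 1 + A.card = S.card - 1 := by omega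
        have e2 : S.card - 1 - (R.card - 1) + Z.card - 1 = A.card + Z.card - 1 := by omega
        rw [e1] at h1
        rw [e2, ← e3] at h6
        linarith
      · have hUlt := card_lt_card (h.sub_union.ssubset_of_ne hU)
        have h6 := F3 (R.card - 1) A.card Z.card hs2 h.Z_le hA (by omega) (by omega)
        have h7 := hL (R ∪ A) h.sub_union hU (by omega)
        have e1 : R.card + A.card - 1 = R.card - 1 + A.card := by omega
        rw [hcu, e1] at h7
        rw [← e3] at h6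
        unfold cst at h1
        linarith
    · have huU : u ∉ R ∪ A := by
        intro h8
        rcases mem_union.1 h8 with h9 | h9
        · exact huR h9
        · exact huA h9
      apply ih (R ∪ A) h.sub_union (mem_union_left _ hxR) (mem_union_left _ hyR) huU (by omega)
        (by omega)
      have h6 := F1 (R.card - 1 - 1) (A.card + Z.card - 1) Z.card h.Z_pos h.Z_le (by omega)
      have e1 : R.card - 1 - 1 + (A.card + Z.card - 1) + 1 - Z.card = R.card + A.card - 2 := by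
        have := h.Z_pos
        omega
      have e2 : R.card + A.card - 1 = R.card - 1 + A.card := by omega
      rw [e1, ← e3] at h6
      rw [hcu, e2]
      unfold cst at h1
      linarith

/-- the chain theorem: all steps are final and nothing is lost -/
theorem chain (hS : CrOn G S K) (hI : IH K β S.card) (hK : 0 < K) (hbig : 2 ≤ Yy G K β S)
    (F1 : ∀ m t s : ℕ, 1 ≤ s → s ≤ K → s ≤ t →
      β m + β t + 2 ≤ β (m + t + 1 - s) + s * ((K : ℤ) + 2 - s))
    (F2w : ∀ m s : ℕ, 2 ≤ s → s ≤ K → K ≤ m → m < S.card - 1 →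
      (K : ℤ) + 1 + β (m - 1) + β (S.card - 1 - m + s - 1) ≤
        β (S.card - 1) + s * ((K : ℤ) + 2 - s) + 2)
    (F3 : ∀ m a s : ℕ, 2 ≤ s → s ≤ K → 1 ≤ a → K ≤ m → m + a < S.card - 1 →
      (K : ℤ) + 1 + β (m - 1) + β (a + s - 1) <
        β (m + a) + s * ((K : ℤ) + 2 - s) + Lf (m + a))
    (hL : ∀ R ⊆ S, R ≠ S → K + 1 ≤ R.card → Lf (R.card - 1) ≤ Yy G K β R)
    {u x y : V} (hu : u ∈ S) (hd : dg G S u ≤ K) (hux : G.Adj u x) (huy : G.Adj u y)
    (hne : x ≠ y) {R : Finset V} (hR : R ⊆ S) (hxR : x ∈ R) (hyR : y ∈ R) (huR : u ∉ R)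
    (hc : K + 1 ≤ R.card)
    (hle : Yy G K β R ≤ (K : ℤ) + 1 + β (R.card - 2) - β (R.card - 1))
    {ψ : V → Fin K} {A : Finset V} {Z : Finset (Fin K)} (h : Step G S R ψ A Z) :
    R ∪ A = S ∧ u ∈ A ∧ 2 ≤ Z.card ∧ gain G R ψ A Z = 0 ∧
      Yy (con G R ψ) K β (A.disjSum Z) = 0 ∧ Yy G K β S = 2 ∧
      Yy G K β R = (K : ℤ) + 1 + β (R.card - 2) - β (R.card - 1) ∧
      β (S.card - 1) + Z.card * ((K : ℤ) + 2 - Z.card) <
        (K : ℤ) + 1 + β (R.card - 1 - 1) + β (S.card - 1 - (R.card - 1) + Z.card - 1) := by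
  have hneS : R ≠ S := by
    rintro rfl
    exact huR hu
  have hlt := card_lt_card (hR.ssubset_of_ne hneS)
  have h1 := h.Yy_le' hI hc
  have h1q := (h.Yy_le hI hc).1
  have h1e := h.Yy_eq β
  have hg := h.gain_nonneg
  have hcu := h.card_union
  have hA : 1 ≤ A.card := card_pos.2 h.neA
  have e3 : R.card - 2 = R.card - 1 - 1 := by omega
  by_cases huA : u ∈ A
  · obtain ⟨-, -, -, hs2⟩ := h.absorb_two huA hd hxR hyR hne hux huy
    by_cases hU : R ∪ A = S
    · rw [hU] at h1 h1e hcu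
      have h6 := F2w (R.card - 1) Z.card hs2 h.Z_le (by omega) (by omega)
      unfold cst at h1 h1e
      have e1 : R.card - 1 + A.card = S.card - 1 := by omega
      have e2 : S.card - 1 - (R.card - 1) + Z.card - 1 = A.card + Z.card - 1 := by omega
      rw [e1] at h1 h1e
      rw [e2, ← e3] at h6
      rw [e2, ← e3]
      refine ⟨hU, huA, hs2, ?_, ?_, ?_, ?_, ?_⟩
      · linarith
      · linarith
      · linarith
      · linarith
      · linarith
    · exfalso
      have hUlt := card_lt_card (h.sub_union.ssubset_of_ne hU)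
      have h6 := F3 (R.card - 1) A.card Z.card hs2 h.Z_le hA (by omega) (by omega)
      have h7 := hL (R ∪ A) h.sub_union hU (by omega)
      have e1 : R.card + A.card - 1 = R.card - 1 + A.card := by omega
      rw [hcu, e1] at h7
      rw [← e3] at h6
      unfold cst at h1
      linarith
  · exfalso
    have huU : u ∉ R ∪ A := by
      intro h8
      rcases mem_union.1 h8 with h9 | h9
      · exact huR h9
      · exact huA h9
    apply no_deep hS hI hK hbig F1 F2w F3 hL hu hd hux huy hne _ (R ∪ A) h.sub_union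
      (mem_union_left _ hxR) (mem_union_left _ hyR) huU (by omega) le_rfl
    have h6 := F1 (R.card - 1 - 1) (A.card + Z.card - 1) Z.card h.Z_pos h.Z_le (by omega)
    have e1 : R.card - 1 - 1 + (A.card + Z.card - 1) + 1 - Z.card = R.card + A.card - 2 := by
      have := h.Z_pos
      omega
    have e2 : R.card + A.card - 1 = R.card - 1 + A.card := by omega
    rw [e1, ← e3] at h6
    rw [hcu, e2]
    unfold cst at h1
    linarith

/-- no two non-adjacent neighbours of a low vertex if (F2) holds -/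
theorem no_pair (hS : CrOn G S K) (hI : IH K β S.card) (hK : 0 < K) (hbig : 2 ≤ Yy G K β S)
    (F1 : ∀ m t s : ℕ, 1 ≤ s → s ≤ K → s ≤ t →
      β m + β t + 2 ≤ β (m + t + 1 - s) + s * ((K : ℤ) + 2 - s))
    (F2 : ∀ m s : ℕ, 2 ≤ s → s ≤ K → K ≤ m → m < S.card - 1 →
      (K : ℤ) + 1 + β (m - 1) + β (S.card - 1 - m + s - 1) ≤
        β (S.card - 1) + s * ((K : ℤ) + 2 - s))
    (F3 : ∀ m a s : ℕ, 2 ≤ s → s ≤ K → 1 ≤ a → K ≤ m → m + a < S.card - 1 →
      (K : ℤ) + 1 + β (m - 1) + β (a + s - 1) <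
        β (m + a) + s * ((K : ℤ) + 2 - s) + Lf (m + a))
    (hL : ∀ R ⊆ S, R ≠ S → K + 1 ≤ R.card → Lf (R.card - 1) ≤ Yy G K β R)
    {u x y : V} (hu : u ∈ S) (hd : dg G S u ≤ K) (hx : x ∈ S) (hy : y ∈ S)
    (hux : G.Adj u x) (huy : G.Adj u y) (hne : x ≠ y) : G.Adj x y := by
  by_contra hnad
  obtain ⟨W, hW, hP⟩ := pair_low hS hK hu hd hx hy hux huy hne hnad
  have huW : u ∉ W := fun h => (mem_erase.1 (hW h)).1 rfl
  have hWS : W ≠ S := by
    rintro rfl
    exact huW hu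
  have hc := hP.card_ge
  obtain ⟨ψ, A, Z, h⟩ := step_any hS hK hP.sub hWS (by omega)
  have h1 := hP.Y_le hI
  have h2 : (0 : ℤ) ≤ (cmn G W x y).card := Int.natCast_nonneg _
  obtain ⟨-, -, hs2, -, -, -, -, h3⟩ := chain hS hI hK hbig F1
    (fun m s h1 h2 h3 h4 => by linarith [F2 m s h1 h2 h3 h4]) F3 hL hu hd hux huy hne
    hP.sub hP.hx hP.hy huW (by omega) (by linarith) h
  have hlt := card_lt_card (hP.sub.ssubset_of_ne hWS)
  have h4 := F2 (W.card - 1) Z.card hs2 h.Z_le (by omega) (by omega)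
  linarith

/-- the pair package in the remaining case -/
theorem pair_pack (hS : CrOn G S K) (hI : IH K β S.card) (hK : 0 < K) (hbig : 2 ≤ Yy G K β S)
    (F1 : ∀ m t s : ℕ, 1 ≤ s → s ≤ K → s ≤ t →
      β m + β t + 2 ≤ β (m + t + 1 - s) + s * ((K : ℤ) + 2 - s))
    (F2w : ∀ m s : ℕ, 2 ≤ s → s ≤ K → K ≤ m → m < S.card - 1 →
      (K : ℤ) + 1 + β (m - 1) + β (S.card - 1 - m + s - 1) ≤
        β (S.card - 1) + s * ((K : ℤ) + 2 - s) + 2)
    (F2e : ∀ m s : ℕ, 2 ≤ s → s ≤ K → K ≤ m → m < S.card - 1 → ¬ (m % K = 1 ∧ s = 3) →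
      (K : ℤ) + 1 + β (m - 1) + β (S.card - 1 - m + s - 1) ≤
        β (S.card - 1) + s * ((K : ℤ) + 2 - s))
    (F3 : ∀ m a s : ℕ, 2 ≤ s → s ≤ K → 1 ≤ a → K ≤ m → m + a < S.card - 1 →
      (K : ℤ) + 1 + β (m - 1) + β (a + s - 1) <
        β (m + a) + s * ((K : ℤ) + 2 - s) + Lf (m + a))
    (F8 : ∀ m : ℕ, m % K = 1 → β (m - 1) - β m + ((K : ℤ) + 1) = 2 * K - 2)
    (hL : ∀ R ⊆ S, R ≠ S → K + 1 ≤ R.card → Lf (R.card - 1) ≤ Yy G K β R)
    {u x y : V} (hu : u ∈ S) (hd : dg G S u ≤ K) (hx : x ∈ S) (hy : y ∈ S)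
    (hux : G.Adj u x) (huy : G.Adj u y) (hne : x ≠ y) (hnad : ¬ G.Adj x y) :
    ∃ W, Pair G S K x y W ∧ u ∉ W ∧
      (∀ v ∈ S, dg G S v = K → G.Adj v x → G.Adj v y → v ∉ W) ∧
      (∀ v ∈ W, ¬ (G.Adj v x ∧ G.Adj v y)) ∧ (W.card - 1) % K = 1 ∧
      df G K W = β (W.card - 1) + (2 * K - 2) ∧
      df (mg G x y) K (W.erase y) = β (W.card - 2) ∧
      ∀ (ψ : V → Fin K) (A : Finset V) (Z : Finset (Fin K)), Step G S W ψ A Z →
        A = S \ W ∧ Z.card = 3 ∧ gain G W ψ A Z = 0 ∧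
          Yy (con G W ψ) K β (A.disjSum Z) = 0 ∧ u ∈ A := by
  obtain ⟨W, hW, hP⟩ := pair_low hS hK hu hd hx hy hux huy hne hnad
  have huW : u ∉ W := fun h => (mem_erase.1 (hW h)).1 rfl
  have hWS : W ≠ S := by
    rintro rfl
    exact huW hu
  have hc := hP.card_ge
  have h1 := hP.Y_le hI
  have h1e := hP.Y_eq (β := β)
  have hYm : Yy (mg G x y) K β (W.erase y) ≤ 0 := by
    have h2 := hI V (mg G x y) (W.erase y) hP.cr hP.lt
    unfold Yy
    linarith
  have h2 : (0 : ℤ) ≤ (cmn G W x y).card := Int.natCast_nonneg _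
  have hlt := card_lt_card (hP.sub.ssubset_of_ne hWS)
  have hall : ∀ (ψ : V → Fin K) (A : Finset V) (Z : Finset (Fin K)), Step G S W ψ A Z →
      W ∪ A = S ∧ u ∈ A ∧ Z.card = 3 ∧ gain G W ψ A Z = 0 ∧
      Yy (con G W ψ) K β (A.disjSum Z) = 0 ∧
      Yy G K β W = (K : ℤ) + 1 + β (W.card - 2) - β (W.card - 1) ∧ (W.card - 1) % K = 1 := by
    intro ψ A Z h
    obtain ⟨g1, g2, g3, g4, g5, g6, g7, g8⟩ := chain hS hI hK hbig F1 F2w F3 hL hu hd hux huy hne
      hP.sub hP.hx hP.hy huW (by omega) (by linarith) h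
    have g9 : (W.card - 1) % K = 1 ∧ Z.card = 3 := by
      by_contra hcon
      have h4 := F2e (W.card - 1) Z.card g3 h.Z_le (by omega) (by omega) hcon
      linarith
    exact ⟨g1, g2, g9.2, g4, g5, g7, g9.1⟩
  obtain ⟨ψ, A, Z, h⟩ := step_any hS hK hP.sub hWS (by omega)
  obtain ⟨-, -, -, -, -, g7, g9⟩ := hall ψ A Z h
  have hcm : (cmn G W x y).card = 0 := by
    have h5 : ((cmn G W x y).card : ℤ) ≤ 0 := by linarith
    omega
  have e3 : W.card - 2 = W.card - 1 - 1 := by omega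
  have h8 := F8 (W.card - 1) g9
  rw [← e3] at h8
  have e4 : (W.erase y).card - 1 = W.card - 2 := by
    have := hP.card
    omega
  refine ⟨W, hP, huW, ?_, ?_, g9, ?_, ?_, ?_⟩
  · intro v _ hv hvx hvy
    exact hP.no_low hv.le hvx hvy
  · rintro v hv ⟨hvx, hvy⟩
    have h5 : v ∈ cmn G W x y := mem_filter.2 ⟨hv, hvx.symm, hvy.symm⟩
    rw [card_eq_zero.1 hcm] at h5
    exact notMem_empty v h5
  · unfold Yy at g7
    linarith
  · have h6 : Yy (mg G x y) K β (W.erase y) = 0 := by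
      rw [hcm] at h1e
      push_cast at h1e
      linarith
    unfold Yy at h6
    rw [e4] at h6
    linarith
  · intro ψ A Z h
    obtain ⟨g1, g2, g3, g4, g5, -, -⟩ := hall ψ A Z h
    exact ⟨(h.final_card g1).1, g3, g4, g5, g2⟩

end chain

end Pool.Agent.OW28G
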