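import Pool.Agent.Lib_helper28.OW.G4d

/-! S4 for `5 ≤ K`, part e: the residue `K - 1`, for an arbitrary bound `β`. -/

set_option autoImplicit false
set_option linter.unusedSectionVars false
set_option linter.unusedVariables false

open scoped Classical
open Finset
open Pool.Agent.O2 Pool.Agent.O3

namespace Pool.Agent.OW28G

open Pool.Agent.OW (df Yy IH AE bd mg Pair Step gain)
open Pool.Agent.OW.S5 (Tgt PS)
open Pool.Agent.OX25 (T6)
open Pool.Agent.OW28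

variable {V : Type}

/-- the residue `K - 1` is impossible -/
theorem r_last {K : ℕ} (hK : 5 ≤ K) {β Lf : ℕ → ℤ}
    (hβ0 : ∀ q : ℕ, β (K * q) = 2 * (q : ℤ) + (K - 1))
    (hβ1 : ∀ q : ℕ, β (K * q + 1) = 2 * (q : ℤ) + 2)
    (hβl : ∀ q : ℕ, β (K * q + (K - 1)) = 2 * (q : ℤ) + 2)
    (T : T6 K β)
    (F1 : ∀ m t s : ℕ, 1 ≤ s → s ≤ K → s ≤ t →
      β m + β t + 2 ≤ β (m + t + 1 - s) + s * ((K : ℤ) + 2 - s))
    {G : SimpleGraph V} {S : Finset V} (hc : CrOn G S K)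
    (hI : IH K β S.card) (hbig : 2 ≤ Yy G K β S) (hr : (S.card - 1) % K = K - 1)
    (hA : AE G S K 1) (hY4 : ∀ R ⊆ S, R ≠ S → K + 1 ≤ R.card → 4 ≤ Yy G K β R)
    (F2w : ∀ m s : ℕ, 2 ≤ s → s ≤ K → K ≤ m → m < S.card - 1 →
      (K : ℤ) + 1 + β (m - 1) + β (S.card - 1 - m + s - 1) ≤
        β (S.card - 1) + s * ((K : ℤ) + 2 - s) + 2)
    (F2e : ∀ m s : ℕ, 2 ≤ s → s ≤ K → K ≤ m → m < S.card - 1 → ¬ (m % K = 1 ∧ s = 3) →
      (K : ℤ) + 1 + β (m - 1) + β (S.card - 1 - m + s - 1) ≤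
        β (S.card - 1) + s * ((K : ℤ) + 2 - s))
    (F3 : ∀ m a s : ℕ, 2 ≤ s → s ≤ K → 1 ≤ a → K ≤ m → m + a < S.card - 1 →
      (K : ℤ) + 1 + β (m - 1) + β (a + s - 1) <
        β (m + a) + s * ((K : ℤ) + 2 - s) + Lf (m + a))
    (hL : ∀ R ⊆ S, R ≠ S → K + 1 ≤ R.card → Lf (R.card - 1) ≤ Yy G K β R) : False := by
  have hSc := hc.card_ge
  have hcard : K + 1 < S.card := by
    rcases Nat.lt_or_ge (K + 1) S.card with h | h
    · exact h
    · exfalso
      have : S.card - 1 = K := by omega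
      rw [this, Nat.mod_self] at hr
      omega
  have hdf : 0 < df G K S := by
    have h1 : β (S.card - 1) = 2 * (((S.card - 1) / K : ℕ) : ℤ) + 2 := by
      have h2 := hβl ((S.card - 1) / K)
      rw [← h2]
      congr 1
      have := Nat.div_add_mod (S.card - 1) K
      omega
    unfold Yy at hbig
    have h3 : (0 : ℤ) ≤ (((S.card - 1) / K : ℕ) : ℤ) := Int.natCast_nonneg _
    linarith
  have hself : β K = (K : ℤ) + 1 := by
    have := hβ0 1
    rw [mul_one] at this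
    rw [this]
    push_cast
    ring
  have ha : Add1 G S K := Pool.Agent.OW.add1_of_ae (by omega) hA
  have hce : NoCE G S K := Pool.Agent.OW.noCE_of_Y hc (by omega) hcard hself hY4
  have F8 : ∀ m : ℕ, m % K = 1 → β (m - 1) - β m + ((K : ℤ) + 1) = 2 * K - 2 := by
    intro m hm
    have h1 : K * (m / K) + 1 = m := by
      have := Nat.div_add_mod m K
      omega
    have h2 := hβ1 (m / K)
    have h3 := hβ0 (m / K)
    rw [h1] at h2
    have h4 : m - 1 = K * (m / K) := by omega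
    rw [h4, h2, h3]
    ring
  exact last_core hK hβ0 hβ1 hβl hc hr ha hce hY4 (Pool.Agent.OW.low_pair hc hdf hcard)
    fun u hu hd x hx y hy hux huy hne hnad =>
      pk_exists hK hc hI hbig T F1 F2w F2e F3 F8 hL hY4 hu hd hx hy hux huy hne hnad

/-- the residues in which no pair sets exist are impossible -/
theorem r_nopair {K : ℕ} {β Lf : ℕ → ℤ} (hK : 1 ≤ K)
    (F1 : ∀ m t s : ℕ, 1 ≤ s → s ≤ K → s ≤ t →
      β m + β t + 2 ≤ β (m + t + 1 - s) + s * ((K : ℤ) + 2 - s))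
    {G : SimpleGraph V} {S : Finset V} (hc : CrOn G S K)
    (hI : IH K β S.card) (hbig : 2 ≤ Yy G K β S) (hcard : K + 1 < S.card)
    (hdf : 0 < df G K S)
    (F2 : ∀ m s : ℕ, 2 ≤ s → s ≤ K → K ≤ m → m < S.card - 1 →
      (K : ℤ) + 1 + β (m - 1) + β (S.card - 1 - m + s - 1) ≤
        β (S.card - 1) + s * ((K : ℤ) + 2 - s))
    (F3 : ∀ m a s : ℕ, 2 ≤ s → s ≤ K → 1 ≤ a → K ≤ m → m + a < S.card - 1 →
      (K : ℤ) + 1 + β (m - 1) + β (a + s - 1) <
        β (m + a) + s * ((K : ℤ) + 2 - s) + Lf (m + a))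
    (hL : ∀ R ⊆ S, R ≠ S → K + 1 ≤ R.card → Lf (R.card - 1) ≤ Yy G K β R) : False := by
  obtain ⟨u, hu, hd, x, hx, y, hy, hux, huy, hne, hnad⟩ :=
    Pool.Agent.OW.low_pair hc hdf hcard
  exact hnad (no_pair hc hI (by omega) hbig F1 F2 F3 hL hu hd.le hx hy hux huy hne)

end Pool.Agent.OW28G
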