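import Pool.Agent.Lib_helper28.OW.G5n
import Pool.Agent.Lib_helper25.OX.U0

/-! Numeric facts for five colours: tight sets. -/

set_option autoImplicit false

namespace Pool.Agent.OW28G

open Pool.Agent.OW (cst)
open Pool.Agent.OX25 (T6)

theorem b5_c1 (m a s : ℕ) (h1 : 1 ≤ a) (h2 : 1 ≤ s) (h3 : s ≤ 5) (h4 : 5 + 1 ≤ a + s) :
    2 ≤ cst 5 b5 s m a := by
  unfold cst
  interval_cases s <;> push_cast <;> unfold b5 v5 <;> split_ifs <;> omega

theorem b5_c2 (m a s : ℕ) (h1 : 1 ≤ a) (h2 : 1 ≤ s) (h3 : s ≤ 5) (h4 : 5 + 1 ≤ a + s)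
    (hm : m % 5 ≠ 0) (hma : (m + a) % 5 = 0) :
    8 ≤ cst 5 b5 s m a := by
  unfold cst
  interval_cases s <;> push_cast <;> unfold b5 v5 <;> split_ifs <;> omega

theorem b5_c3 (m a s : ℕ) (h1 : 1 ≤ a) (h2 : 1 ≤ s) (h3 : s ≤ 5) (h4 : 5 + 1 ≤ a + s)
    (hm : m % 5 = 2) (hma : (m + a) % 5 = 0) :
    8 < cst 5 b5 s m a := by
  unfold cst
  interval_cases s <;> push_cast <;> unfold b5 v5 <;> split_ifs <;> omega

theorem b5_c4 (m a s : ℕ) (h1 : 1 ≤ a) (h2 : 3 ≤ s) (h3 : s ≤ 5) (h4 : 5 + 1 ≤ a + s)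
    (hm : m % 5 = 1) (hma : (m + a) % 5 = 0) :
    8 < cst 5 b5 s m a := by
  unfold cst
  interval_cases s <;> push_cast <;> unfold b5 v5 <;> split_ifs <;> omega

theorem b5_c5 (m a s : ℕ) (h1 : 1 ≤ a) (h2 : 2 ≤ s) (h3 : s ≤ 5) (h4 : 5 + 1 ≤ a + s)
    (hm : m % 5 = 0) (hma : a % 5 = 0) :
    4 < cst 5 b5 s m a := by
  unfold cst
  interval_cases s <;> push_cast <;> unfold b5 v5 <;> split_ifs <;> omega

theorem b5_up (m : ℕ) (hm : 1 ≤ m) :
    (m % 5 = 0 → b5 (m - 1) - b5 m + 6 = 2) ∧ (m % 5 = 1 → b5 (m - 1) - b5 m + 6 = 8) ∧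
    (m % 5 = 2 → b5 (m - 1) - b5 m + 6 = 8) ∧
    (3 ≤ m % 5 → b5 (m - 1) - b5 m + 6 ≤ 6) := by
  unfold b5 v5
  split_ifs <;> omega

/-- the numeric facts for tight sets hold for five colours -/
theorem T6_5 : T6 5 b5 where
  hK := by omega
  pos m hm := by
    unfold b5 v5
    split_ifs <;> omega
  mul m m' h1 h2 := by
    unfold b5 v5
    split_ifs <;> push_cast <;> omega
  n1 m a s h1 h2 h3 h4 := b5_c1 m a s h1 h2 h3 h4
  n2 m a s h1 h2 h3 h4 h5 h6 := by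
    have := b5_c2 m a s h1 h2 h3 h4 (by omega) (by omega)
    push_cast
    linarith
  n3a m h1 h2 := by
    have := (b5_up m h2).1 (by omega)
    push_cast
    linarith
  n3b m h1 h2 := by
    have hu := b5_up m (by omega)
    by_cases h : m % 5 = 2
    · right
      refine ⟨?_, fun a s h3 h4 h5 h6 h7 => ?_⟩
      · have := hu.2.2.1 h
        push_cast
        linarith
      · have := b5_c3 m a s h3 h4 h5 h6 h (by omega)
        push_cast
        linarith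
    · left
      have := hu.2.2.2 (by omega)
      push_cast
      linarith
  n3c m h := by
    have := (b5_up m (by omega)).2.1 h
    push_cast
    linarith
  n4 m a s h1 h2 h3 h4 h5 h6 := by
    have := b5_c4 m a s h1 h2 h3 h4 h5 (by omega)
    push_cast
    linarith
  n5 m a s h1 h2 h3 h4 h5 h6 := b5_c5 m a s h1 h2 h3 h4 (by omega) (by omega)

end Pool.Agent.OW28G
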