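import Pool.Agent.Lib_helper28.OW.G4e
import Pool.Agent.Lib_helper28.OW.G5t

/-! Five colours: the residues `0`, `1`, `4`. -/

set_option autoImplicit false
set_option linter.unusedSectionVars false
set_option linter.unusedVariables false

open scoped Classical
open Finset
open Pool.Agent.O2 Pool.Agent.O3

namespace Pool.Agent.OW28G

open Pool.Agent.OW (df Yy IH AE bd mg Pair Step gain cst step_any)
open Pool.Agent.OW.S5 (Tgt PS)
open Pool.Agent.OX25 (T6)
open Pool.Agent.OW28

variable {V : Type} {G : SimpleGraph V} {S : Finset V}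

/-- all proper subsets have `Y ≥ 4` -/
theorem Y4 (hS : CrOn G S 5) (hI : IH 5 b5 S.card) (hbig : 2 ≤ Yy G 5 b5 S) :
    ∀ R ⊆ S, R ≠ S → 5 + 1 ≤ R.card → 4 ≤ Yy G 5 b5 R :=
  Pool.Agent.OW.Y_ge_four (by omega) hS hI (fun m t s h1 h2 h3 => b5_F1 m t s h1 h2 h3) hbig

/-- one edge can be added -/
theorem AE1 (hS : CrOn G S 5) (hI : IH 5 b5 S.card) (hbig : 2 ≤ Yy G 5 b5 S) : AE G S 5 1 :=
  Pool.Agent.OW.ae_of_Y (i := 1) hS hI fun X hX hne hc => by
    have h4 := Y4 hS hI hbig X hX hne hc
    push_cast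
    linarith

/-- a violating graph has more than six vertices -/
theorem card_gt (hS : CrOn G S 5) (hbig : 2 ≤ Yy G 5 b5 S) : 5 + 1 < S.card := by
  have h1 := hS.card_ge
  rcases Nat.lt_or_ge (5 + 1) S.card with h | h
  · exact h
  · exfalso
    have hc : S.card = 6 := by omega
    have h2 : df G 5 S ≤ S.card := by
      rw [Pool.Agent.OW.df_sum]
      have h3 : ∑ v ∈ S, ((((5 : ℕ) : ℤ) + 1) - dg G S v) ≤ ∑ v ∈ S, (1 : ℤ) := by
        apply sum_le_sum
        intro v hv
        have h4 : ((5 : ℕ) : ℤ) ≤ dg G S v := by exact_mod_cast hS.dg_ge hv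
        linarith
      rw [sum_const, nsmul_eq_mul, mul_one] at h3
      exact h3
    have h5 : b5 (S.card - 1) = 6 := by
      rw [hc]
      decide
    unfold Yy at hbig
    rw [h5] at hbig
    rw [hc] at h2
    push_cast at h2
    linarith

theorem df_pos (hbig : 2 ≤ Yy G 5 b5 S) : 0 < df G 5 S := by
  unfold Yy at hbig
  have := b5_nonneg (S.card - 1)
  linarith

/-- the table of lower bounds for the residues `0`, `1`, `4` -/
theorem tab5 (hS : CrOn G S 5) (hI : IH 5 b5 S.card) (hbig : 2 ≤ Yy G 5 b5 S)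
    (hr : (S.card - 1) % 5 = 0 ∨ (S.card - 1) % 5 = 1 ∨ (S.card - 1) % 5 = 4) :
    ∀ R ⊆ S, R ≠ S → 5 + 1 ≤ R.card → Lf5 (R.card - 1) ≤ Yy G 5 b5 R := by
  have h4 := Y4 hS hI hbig
  -- residue 2
  have key2 : ∀ k : ℕ, ∀ R ⊆ S, R ≠ S → 5 + 1 ≤ R.card → S.card - R.card ≤ k →
      (R.card - 1) % 5 = 2 → 7 ≤ Yy G 5 b5 R := by
    intro k
    induction k with
    | zero =>
      intro R hR hne hc hk
      have := card_lt_card (hR.ssubset_of_ne hne)
      omega
    | succ k ih =>
      intro R hR hne hc hk hm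
      obtain ⟨ψ, A, Z, h⟩ := step_any hS (by omega) hR hne hc
      have h1 := h.Yy_le' hI hc
      have hcu := h.card_union
      have hA : 1 ≤ A.card := card_pos.2 h.neA
      have hlt := card_lt_card (hR.ssubset_of_ne hne)
      by_cases hU : R ∪ A = S
      · rw [hU] at h1 hcu
        have h2 := b5_F4c (S.card - 1) (R.card - 1) Z.card h.Z_pos h.Z_le (by omega) hm hr
        unfold cst at h1
        have e1 : R.card - 1 + A.card = S.card - 1 := by omega
        have e2 : S.card - 1 - (R.card - 1) + Z.card - 1 = A.card + Z.card - 1 := by omega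
        rw [e1] at h1
        rw [e2] at h2
        linarith
      · have hcu' : 5 + 1 ≤ (R ∪ A).card := by omega
        by_cases hm2 : (R.card - 1 + A.card) % 5 = 2
        · have h2 := ih (R ∪ A) h.sub_union hU hcu' (by omega) (by
            rw [hcu]
            have e1 : R.card + A.card - 1 = R.card - 1 + A.card := by omega
            rw [e1, hm2])
          have h3 := b5_F1 (R.card - 1) (A.card + Z.card - 1) Z.card h.Z_pos h.Z_le (by omega)
          have e1 : R.card - 1 + (A.card + Z.card - 1) + 1 - Z.card = R.card - 1 + A.card := by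
            have := h.Z_pos
            omega
          rw [e1] at h3
          unfold cst at h1
          linarith
        · have h2 := b5_F4b (R.card - 1) A.card Z.card h.Z_pos h.Z_le hA hm hm2
          have h3 := h4 (R ∪ A) h.sub_union hU hcu'
          unfold cst at h1
          linarith
  intro R hR hne hc
  have hlt := card_lt_card (hR.ssubset_of_ne hne)
  have h5 := h4 R hR hne hc
  unfold Lf5
  split_ifs with h2 h3
  · exact key2 _ R hR hne hc le_rfl h2
  · obtain ⟨ψ, A, Z, h⟩ := step_any hS (by omega) hR hne hc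
    have h1 := h.Yy_le' hI hc
    have hcu := h.card_union
    have hA : 1 ≤ A.card := card_pos.2 h.neA
    by_cases hU : R ∪ A = S
    · rw [hU] at h1 hcu
      have h6 := b5_F4a (S.card - 1) (R.card - 1) Z.card h.Z_pos h.Z_le (by omega) h3 hr
      unfold cst at h1
      have e1 : R.card - 1 + A.card = S.card - 1 := by omega
      have e2 : S.card - 1 - (R.card - 1) + Z.card - 1 = A.card + Z.card - 1 := by omega
      rw [e1] at h1
      rw [e2] at h6
      linarith
    · have h7 := h4 (R ∪ A) h.sub_union hU (by omega)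
      have h6 := b5_F1 (R.card - 1) (A.card + Z.card - 1) Z.card h.Z_pos h.Z_le (by omega)
      have e1 : R.card - 1 + (A.card + Z.card - 1) + 1 - Z.card = R.card - 1 + A.card := by
        have := h.Z_pos
        omega
      rw [e1] at h6
      unfold cst at h1
      linarith
  · exact h5

/-- the residues `0`, `1` are impossible -/
theorem five_01 (hS : CrOn G S 5) (hI : IH 5 b5 S.card) (hbig : 2 ≤ Yy G 5 b5 S)
    (hr : (S.card - 1) % 5 = 0 ∨ (S.card - 1) % 5 = 1) : False :=
  r_nopair (K := 5) (β := b5) (Lf := Lf5) (by omega)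
    (fun m t s h1 h2 h3 => b5_F1 m t s h1 h2 h3) hS hI hbig (card_gt hS hbig) (df_pos hbig)
    (fun m s h1 h2 h3 h4 => b5_F2 _ m s h1 h2 h3 h4 hr)
    (fun m a s h1 h2 h3 h4 _ => b5_F3 m a s h1 h2 h3 h4)
    (tab5 hS hI hbig (by omega))

/-- the residue `4` is impossible -/
theorem five_4 (hS : CrOn G S 5) (hI : IH 5 b5 S.card) (hbig : 2 ≤ Yy G 5 b5 S)
    (hr : (S.card - 1) % 5 = 4) : False :=
  r_last (K := 5) (β := b5) (Lf := Lf5) (by omega) b5_0 b5_1 b5_4 T6_5
    (fun m t s h1 h2 h3 => b5_F1 m t s h1 h2 h3) hS hI hbig hr (AE1 hS hI hbig)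
    (Y4 hS hI hbig)
    (fun m s h1 h2 h3 h4 => b5_F2w _ m s h1 h2 h3 h4 hr)
    (fun m s h1 h2 h3 h4 h5 => b5_F2e _ m s h1 h2 h3 h4 hr h5)
    (fun m a s h1 h2 h3 h4 _ => b5_F3 m a s h1 h2 h3 h4)
    (tab5 hS hI hbig (by omega))

end Pool.Agent.OW28G
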