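import Mathlib

/-! Numeric facts for five colours: the table `[4 | 2, 0, 0, 2]`. -/

set_option autoImplicit false

namespace Pool.Agent.OW28G

/-- the table for five colours -/
def v5 (p : ℕ) : ℤ := if p = 0 then 4 else if p = 1 then 2 else if p = 4 then 2 else 0

/-- the bound for five colours -/
def b5 (m : ℕ) : ℤ := 2 * ((m / 5 : ℕ) : ℤ) + v5 (m % 5)

/-- lower bounds for `Y` when the residue is `0`, `1` or `4` -/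
def Lf5 (m : ℕ) : ℤ := if m % 5 = 2 then 7 else if m % 5 = 3 then 6 else 4

theorem b5_nonneg (m : ℕ) : 0 ≤ b5 m := by
  unfold b5 v5
  split_ifs <;> omega

theorem b5_0 (q : ℕ) : b5 (5 * q) = 2 * (q : ℤ) + (((5 : ℕ) : ℤ) - 1) := by
  unfold b5 v5
  split_ifs <;> push_cast <;> omega

theorem b5_1 (q : ℕ) : b5 (5 * q + 1) = 2 * (q : ℤ) + 2 := by
  unfold b5 v5
  split_ifs <;> push_cast <;> omega

theorem b5_4 (q : ℕ) : b5 (5 * q + (5 - 1)) = 2 * (q : ℤ) + 2 := by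
  unfold b5 v5
  split_ifs <;> push_cast <;> omega

theorem b5_F0 (m : ℕ) : (2 : ℤ) ∣ (((5 : ℕ) : ℤ) + 1) * (m + 1) - b5 m := by
  unfold b5 v5
  push_cast
  split_ifs <;> omega

theorem b5_F1 (m t s : ℕ) (h1 : 1 ≤ s) (h2 : s ≤ 5) (h3 : s ≤ t) :
    b5 m + b5 t + 2 ≤ b5 (m + t + 1 - s) + (s : ℤ) * (((5 : ℕ) : ℤ) + 2 - s) := by
  interval_cases s <;> push_cast <;> unfold b5 v5 <;> split_ifs <;> omega

theorem b5_F2 (N m s : ℕ) (h1 : 2 ≤ s) (h2 : s ≤ 5) (h3 : 5 ≤ m) (h4 : m < N)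
    (hN : N % 5 = 0 ∨ N % 5 = 1) :
    ((5 : ℕ) : ℤ) + 1 + b5 (m - 1) + b5 (N - m + s - 1) ≤
      b5 N + (s : ℤ) * (((5 : ℕ) : ℤ) + 2 - s) := by
  interval_cases s <;> push_cast <;> unfold b5 v5 <;> split_ifs <;> omega

theorem b5_F2w (N m s : ℕ) (h1 : 2 ≤ s) (h2 : s ≤ 5) (h3 : 5 ≤ m) (h4 : m < N)
    (hN : N % 5 = 4) :
    ((5 : ℕ) : ℤ) + 1 + b5 (m - 1) + b5 (N - m + s - 1) ≤
      b5 N + (s : ℤ) * (((5 : ℕ) : ℤ) + 2 - s) + 2 := by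
  interval_cases s <;> push_cast <;> unfold b5 v5 <;> split_ifs <;> omega

theorem b5_F2e (N m s : ℕ) (h1 : 2 ≤ s) (h2 : s ≤ 5) (h3 : 5 ≤ m) (h4 : m < N)
    (hN : N % 5 = 4) (he : ¬ (m % 5 = 1 ∧ s = 3)) :
    ((5 : ℕ) : ℤ) + 1 + b5 (m - 1) + b5 (N - m + s - 1) ≤
      b5 N + (s : ℤ) * (((5 : ℕ) : ℤ) + 2 - s) := by
  interval_cases s <;> push_cast <;> unfold b5 v5 <;> split_ifs <;> omega

theorem b5_F3 (m a s : ℕ) (h1 : 2 ≤ s) (h2 : s ≤ 5) (h3 : 1 ≤ a) (h4 : 5 ≤ m) :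
    ((5 : ℕ) : ℤ) + 1 + b5 (m - 1) + b5 (a + s - 1) <
      b5 (m + a) + (s : ℤ) * (((5 : ℕ) : ℤ) + 2 - s) + Lf5 (m + a) := by
  interval_cases s <;> push_cast <;> unfold b5 v5 Lf5 <;> split_ifs <;> omega

theorem b5_F4a (N m s : ℕ) (h1 : 1 ≤ s) (h2 : s ≤ 5) (h4 : m < N) (hm : m % 5 = 3)
    (hN : N % 5 = 0 ∨ N % 5 = 1 ∨ N % 5 = 4) :
    b5 m + b5 (N - m + s - 1) + 4 ≤ b5 N + (s : ℤ) * (((5 : ℕ) : ℤ) + 2 - s) := by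
  interval_cases s <;> push_cast <;> unfold b5 v5 <;> split_ifs <;> omega

theorem b5_F4b (m a s : ℕ) (h1 : 1 ≤ s) (h2 : s ≤ 5) (h3 : 1 ≤ a) (hm : m % 5 = 2)
    (hm' : (m + a) % 5 ≠ 2) :
    b5 m + b5 (a + s - 1) + 3 ≤ b5 (m + a) + (s : ℤ) * (((5 : ℕ) : ℤ) + 2 - s) := by
  interval_cases s <;> push_cast <;> unfold b5 v5 <;> split_ifs <;> omega

theorem b5_F4c (N m s : ℕ) (h1 : 1 ≤ s) (h2 : s ≤ 5) (h4 : m < N) (hm : m % 5 = 2)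
    (hN : N % 5 = 0 ∨ N % 5 = 1 ∨ N % 5 = 4) :
    b5 m + b5 (N - m + s - 1) + 5 ≤ b5 N + (s : ℤ) * (((5 : ℕ) : ℤ) + 2 - s) := by
  interval_cases s <;> push_cast <;> unfold b5 v5 <;> split_ifs <;> omega

end Pool.Agent.OW28G
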