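import Pool.Agent.Lib_helper28.OW.S4a

/-! S4, part b: the recolouring which excludes three boundary vertices in a clique. -/

set_option autoImplicit false
set_option linter.unusedSectionVars false
set_option linter.unusedVariables false

open scoped Classical
open Finset
open Pool.Agent.O2 Pool.Agent.O3

namespace Pool.Agent.OW28

variable {V : Type}

/-- uniqueness of the neighbour outside a clique -/
theorem out_uniq {K : ℕ} {G : SimpleGraph V} {W T : Finset V} (hT : T ⊆ W) (hq : Clq G T)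
    (hk : T.card = K) (hK : 1 ≤ K) {t : V} (ht : t ∈ T) (hd : dg G W t = K) {b c : V}
    (hb : b ∈ W) (hc : c ∈ W) (hbT : b ∉ T) (hcT : c ∉ T) (hab : G.Adj t b)
    (hac : G.Adj t c) : b = c := by
  obtain ⟨z, -, -, h⟩ := out_one hT hq hk hK ht hd
  exact (h b hb hab hbT).trans (h c hc hac hcT).symm

/-- a `K`-clique sees all colours -/
theorem clq_all_col {K : ℕ} {G : SimpleGraph V} {T : Finset V} (hq : Clq G T)
    (hk : T.card = K) {φ : V → Fin K} (hφ : PC G T φ) (c : Fin K) : ∃ t ∈ T, φ t = c := by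
  have h : T.image φ = univ := by
    apply eq_univ_of_card
    rw [Fintype.card_fin, card_image_of_injOn, hk]
    intro a ha b hb he
    by_contra hab
    exact hφ a ha b hb (hq a ha b hb hab) he
  have : c ∈ T.image φ := h ▸ mem_univ c
  obtain ⟨t, ht, hc⟩ := mem_image.1 this
  exact ⟨t, ht, hc⟩

theorem no_three {K : ℕ} (hK : 7 ≤ K) {G : SimpleGraph V} {W T B : Finset V} {x y w : V}
    (hT : T ⊆ W) (hq : Clq G T) (hk : T.card = K) (hd : ∀ t ∈ T, dg G W t = K)
    (hx : x ∈ B) (hy : y ∈ B) (hxT : x ∉ T) (hyT : y ∉ T)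
    (hw : ∀ t ∈ T, t ∉ B → G.Adj t w) (hwW : w ∈ W) (hwT : w ∉ T)
    (h3 : ∀ φ : V → Fin K, PC G W φ → (B.image φ).card = 3)
    (hxy : ∀ φ : V → Fin K, PC G W φ → φ x ≠ φ y)
    (hex : ∃ φ : V → Fin K, PC G W φ) (hD : (T ∩ B).card = 3) : False := by
  obtain ⟨φ, hφ⟩ := hex
  obtain ⟨d1, hd1, he1⟩ := clq_all_col hq hk (pc_sub hT hφ) (φ w)
  have hd1B : d1 ∈ B := by
    by_contra h
    exact hφ d1 (hT hd1) w hwW (hw d1 hd1 h) he1
  have hd1D : d1 ∈ T ∩ B := mem_inter.2 ⟨hd1, hd1B⟩
  have hcard2 : ((T ∩ B).erase d1).card = 2 := by rw [card_erase_of_mem hd1D, hD]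
  obtain ⟨d2, d3, h23, hD2⟩ := card_eq_two.1 hcard2
  have hm2 : d2 ∈ (T ∩ B).erase d1 := by rw [hD2]; simp
  have hm3 : d3 ∈ (T ∩ B).erase d1 := by rw [hD2]; simp
  have h2T : d2 ∈ T := (mem_inter.1 (mem_erase.1 hm2).2).1
  have h3T : d3 ∈ T := (mem_inter.1 (mem_erase.1 hm3).2).1
  have h2B : d2 ∈ B := (mem_inter.1 (mem_erase.1 hm2).2).2
  have h3B : d3 ∈ B := (mem_inter.1 (mem_erase.1 hm3).2).2
  have h21 : d2 ≠ d1 := (mem_erase.1 hm2).1
  have h31 : d3 ≠ d1 := (mem_erase.1 hm3).1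
  obtain ⟨z2, hz2, ha2, hu2⟩ := out_one hT hq hk (by omega) h2T (hd d2 h2T)
  obtain ⟨z3, hz3, ha3, hu3⟩ := out_one hT hq hk (by omega) h3T (hd d3 h3T)
  set F : Finset (Fin K) := (B \ T).image φ ∪ {φ w, φ z2, φ z3} with hF
  have hFc : F.card ≤ 5 := by
    have hsub : F ⊆ B.image φ ∪ {φ z2, φ z3} := by
      rw [hF]
      intro c hc
      rcases mem_union.1 hc with h | h
      · exact mem_union_left _ (image_subset_image sdiff_subset h)
      · simp only [mem_insert, mem_singleton] at h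
        rcases h with rfl | rfl | rfl
        · exact mem_union_left _ (mem_image.2 ⟨d1, hd1B, he1⟩)
        · exact mem_union_right _ (by simp)
        · exact mem_union_right _ (by simp)
    refine (card_le_card hsub).trans ((card_union_le _ _).trans ?_)
    have e1 : (B.image φ).card = 3 := h3 φ hφ
    have e2 : ({φ z2, φ z3} : Finset (Fin K)).card ≤ 2 := card_le_two
    omega
  have hFu : 2 ≤ (univ \ F).card := by
    rw [card_sdiff_of_subset (subset_univ _), card_univ, Fintype.card_fin]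
    omega
  obtain ⟨c2, hc2, c3, hc3, hcc⟩ := one_lt_card.1 (show 1 < (univ \ F).card by omega)
  have hc2F := (mem_sdiff.1 hc2).2
  have hc3F := (mem_sdiff.1 hc3).2
  have hwF : φ w ∈ F := mem_union_right _ (by simp)
  have h2w : c2 ≠ φ w := fun h => hc2F (h ▸ hwF)
  have h3w : c3 ≠ φ w := fun h => hc3F (h ▸ hwF)
  have h2z : c2 ≠ φ z2 := fun h => hc2F (h ▸ mem_union_right _ (by simp))
  have h3z : c3 ≠ φ z3 := fun h => hc3F (h ▸ mem_union_right _ (by simp))
  have hPQ : (T \ B).card = (univ \ ({φ w, c2, c3} : Finset (Fin K))).card := by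
    rw [card_sdiff_of_subset (subset_univ _), card_univ, Fintype.card_fin]
    have e1 : ({φ w, c2, c3} : Finset (Fin K)).card = 3 := by
      rw [card_insert_of_notMem, card_insert_of_notMem, card_singleton]
      · simpa using hcc
      · simp [h2w.symm, h3w.symm]
    have e2 := card_sdiff_add_card_inter T B
    omega
  have hPne : (T \ B).Nonempty := by
    rw [← card_pos]
    have e2 := card_sdiff_add_card_inter T B
    omega
  obtain ⟨e, he, hei⟩ := sdr (T \ B) _ hPQ (fun _ => φ w) (by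
    rintro ⟨c, hc, hcc⟩
    obtain ⟨p, hp⟩ := hPne
    have := hcc p hp
    exact (mem_sdiff.1 hc).2 (by simp [this]))
  set g : V → Fin K := fun v => if v = d2 then c2 else if v = d3 then c3 else e v with hg
  have g2 : g d2 = c2 := by simp [hg]
  have g3 : g d3 = c3 := by simp [hg, h23.symm]
  have hLc : ∀ a ∈ T.erase d1, a = d2 ∨ a = d3 ∨ a ∈ T \ B := by
    intro a ha
    have ha' := mem_erase.1 ha
    by_cases hB : a ∈ B
    · have : a ∈ (T ∩ B).erase d1 := mem_erase.2 ⟨ha'.1, mem_inter.2 ⟨ha'.2, hB⟩⟩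
      rw [hD2] at this
      simp only [mem_insert, mem_singleton] at this
      rcases this with h | h
      · exact Or.inl h
      · exact Or.inr (Or.inl h)
    · exact Or.inr (Or.inr (mem_sdiff.2 ⟨ha'.2, hB⟩))
  have ge : ∀ a ∈ T \ B, g a = e a := by
    intro a ha
    have h1 : a ≠ d2 := fun h => (mem_sdiff.1 ha).2 (h ▸ h2B)
    have h2 : a ≠ d3 := fun h => (mem_sdiff.1 ha).2 (h ▸ h3B)
    simp [hg, h1, h2]
  have heQ : ∀ a ∈ T \ B, e a ≠ φ w ∧ e a ≠ c2 ∧ e a ≠ c3 := by
    intro a ha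
    have := (mem_sdiff.1 (he a ha).1).2
    simp only [mem_insert, mem_singleton, not_or] at this
    exact this
  have hψ : PC G W (mix (T.erase d1) g φ) := by
    refine mix_pc (pc_sub sdiff_subset hφ) ?_ ?_
    · intro a ha b hb hab
      rcases hLc a ha with rfl | rfl | ha' <;> rcases hLc b hb with rfl | rfl | hb'
      · exact absurd rfl hab
      · rw [g2, g3]; exact hcc
      · rw [g2, ge b hb']; exact (heQ b hb').2.1.symm
      · rw [g2, g3]; exact hcc.symm
      · exact absurd rfl hab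
      · rw [g3, ge b hb']; exact (heQ b hb').2.2.symm
      · rw [g2, ge a ha']; exact (heQ a ha').2.1
      · rw [g3, ge a ha']; exact (heQ a ha').2.2
      · rw [ge a ha', ge b hb']
        exact fun h => hab (hei a ha' b hb' h)
    · intro a ha b hb hbL hadj
      have haT : a ∈ T := (mem_erase.1 ha).2
      by_cases hbT : b ∈ T
      · have hb1 : b = d1 := by
          by_contra h
          exact hbL (mem_erase.2 ⟨h, hbT⟩)
        rw [hb1, he1]
        rcases hLc a ha with rfl | rfl | ha'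
        · rw [g2]; exact h2w
        · rw [g3]; exact h3w
        · rw [ge a ha']; exact (heQ a ha').1
      · rcases hLc a ha with rfl | rfl | ha'
        · rw [hu2 b hb hadj hbT, g2]; exact h2z
        · rw [hu3 b hb hadj hbT, g3]; exact h3z
        · have : b = w := out_uniq hT hq hk (by omega) haT (hd a haT) hb hwW hbT hwT hadj
            (hw a haT (mem_sdiff.1 ha').2)
          rw [this, ge a ha']; exact (heQ a ha').1
  have hcnt := h3 _ hψ
  set ψ := mix (T.erase d1) g φ with hψd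
  have hxL : ψ x = φ x := mix_not fun h => hxT (mem_erase.1 h).2
  have hyL : ψ y = φ y := mix_not fun h => hyT (mem_erase.1 h).2
  have h2L : ψ d2 = c2 := (mix_mem (mem_erase.2 ⟨h21, h2T⟩)).trans g2
  have h3L : ψ d3 = c3 := (mix_mem (mem_erase.2 ⟨h31, h3T⟩)).trans g3
  have hxF : φ x ∈ F := mem_union_left _ (mem_image.2 ⟨x, mem_sdiff.2 ⟨hx, hxT⟩, rfl⟩)
  have hyF : φ y ∈ F := mem_union_left _ (mem_image.2 ⟨y, mem_sdiff.2 ⟨hy, hyT⟩, rfl⟩)
  have hsub : ({φ x, φ y, c2, c3} : Finset (Fin K)) ⊆ B.image ψ := by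
    intro c hc
    simp only [mem_insert, mem_singleton] at hc
    rcases hc with rfl | rfl | rfl | rfl
    · exact mem_image.2 ⟨x, hx, hxL⟩
    · exact mem_image.2 ⟨y, hy, hyL⟩
    · exact mem_image.2 ⟨d2, h2B, h2L⟩
    · exact mem_image.2 ⟨d3, h3B, h3L⟩
  have h4 : ({φ x, φ y, c2, c3} : Finset (Fin K)).card = 4 := by
    have n1 : φ x ≠ φ y := hxy φ hφ
    have n2 : φ x ≠ c2 := fun h => hc2F (h ▸ hxF)
    have n3 : φ x ≠ c3 := fun h => hc3F (h ▸ hxF)
    have n4 : φ y ≠ c2 := fun h => hc2F (h ▸ hyF)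
    have n5 : φ y ≠ c3 := fun h => hc3F (h ▸ hyF)
    rw [card_insert_of_notMem, card_insert_of_notMem, card_insert_of_notMem, card_singleton]
    · simpa using hcc
    · simp [n4, n5]
    · simp [n1, n2, n3]
  have := card_le_card hsub
  omega

end Pool.Agent.OW28
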