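import Pool.Agent.Lib_helper28.OW.S4b
import Pool.Agent.Lib_helper53.OW.Ext2
import Pool.Agent.Lib_helper51.OW.E3

/-! S4, part c: counting around a clique with many low vertices. -/

set_option autoImplicit false
set_option linter.unusedSectionVars false
set_option linter.unusedVariables false

open scoped Classical
open Finset
open Pool.Agent.O2 Pool.Agent.O3

namespace Pool.Agent.OW28

open Pool.Agent.OW (df Yy IH AE bd bt vt)

variable {V : Type}

theorem bt_add {K : ℕ} (hK : 0 < K) (q p : ℕ) (hp : p < K) :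
    bt K (K * q + p) = 2 * (q : ℤ) + vt K p := by
  unfold bt
  rw [Nat.mul_add_mod, Nat.mod_eq_of_lt hp, Nat.mul_add_div hK, Nat.div_eq_of_lt hp, add_zero]

theorem vt_one {K : ℕ} : vt K 1 = 2 := by simp [vt]

theorem vt_last {K : ℕ} (hK : 2 ≤ K) : vt K (K - 1) = 2 := by
  have h1 : K - 1 ≠ 0 := by omega
  have h2 : K - 1 + 1 = K := by omega
  simp [vt, h1, h2]

/-- adding a disjoint set -/
theorem df_union (G : SimpleGraph V) (K : ℕ) {W X : Finset V} (h : Disjoint W X) :
    df G K (W ∪ X) = df G K W + ((K : ℤ) + 1) * X.card - pr G X X - 2 * pr G X W := by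
  unfold df
  rw [Pool.Agent.OW.pr_union_self h, card_union_of_disjoint h]
  push_cast
  ring

/-- the number of edges in a clique -/
theorem pr_clq {G : SimpleGraph V} {X : Finset V} (h : Clq G X) :
    (pr G X X : ℤ) = X.card * ((X.card : ℤ) - 1) := by
  rw [pr_sum]
  push_cast
  rw [sum_congr rfl (g := fun _ => (X.card : ℤ) - 1)]
  · rw [sum_const, nsmul_eq_mul]
  · intro t ht
    rw [clq_dg h ht]
    have : 0 < X.card := card_pos.2 ⟨t, ht⟩
    omega

/-- a lower bound for the edges between two sets -/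
theorem pr_ge {G : SimpleGraph V} {X W : Finset V} (k : ℕ) (h : ∀ q ∈ X, k ≤ dg G W q) :
    k * X.card ≤ pr G X W := by
  rw [pr_sum, mul_comm, ← smul_eq_mul, ← sum_const]
  exact sum_le_sum h

/-- three neighbours -/
theorem dg_three {G : SimpleGraph V} {W : Finset V} {q a b c : V} (ha : a ∈ W) (hb : b ∈ W)
    (hc : c ∈ W) (hab : a ≠ b) (hac : a ≠ c) (hbc : b ≠ c) (h1 : G.Adj q a) (h2 : G.Adj q b)
    (h3 : G.Adj q c) : 3 ≤ dg G W q := by
  have : ({a, b, c} : Finset V) ⊆ W.filter fun y => G.Adj q y := by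
    intro v hv
    simp only [mem_insert, mem_singleton] at hv
    rcases hv with rfl | rfl | rfl
    · exact mem_filter.2 ⟨ha, h1⟩
    · exact mem_filter.2 ⟨hb, h2⟩
    · exact mem_filter.2 ⟨hc, h3⟩
  have h4 := card_le_card this
  rwa [card_insert_of_notMem (by simp [hab, hac]), card_insert_of_notMem (by simpa using hbc),
    card_singleton] at h4

theorem dg_two {G : SimpleGraph V} {W : Finset V} {q a b : V} (ha : a ∈ W) (hb : b ∈ W)
    (hab : a ≠ b) (h1 : G.Adj q a) (h2 : G.Adj q b) : 2 ≤ dg G W q := by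
  have : ({a, b} : Finset V) ⊆ W.filter fun y => G.Adj q y := by
    intro v hv
    simp only [mem_insert, mem_singleton] at hv
    rcases hv with rfl | rfl
    · exact mem_filter.2 ⟨ha, h1⟩
    · exact mem_filter.2 ⟨hb, h2⟩
  have h4 := card_le_card this
  rwa [card_insert_of_notMem (by simpa using hab), card_singleton] at h4

theorem dg_one {G : SimpleGraph V} {W : Finset V} {q a : V} (ha : a ∈ W)
    (h1 : G.Adj q a) : 1 ≤ dg G W q :=
  card_pos.2 ⟨a, mem_filter.2 ⟨ha, h1⟩⟩

/-- 4.5: the pair set of a low vertex in a clique with `K - 2` low vertices is the complement of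
these vertices -/
theorem count_split {K : ℕ} (hK : 7 ≤ K) {G : SimpleGraph V} {S T W Q : Finset V} {t1 t2 w : V}
    (hr : (S.card - 1) % K = K - 1)
    (hY4 : ∀ R ⊆ S, R ≠ S → K + 1 ≤ R.card → 4 ≤ Yy G K (bt K) R)
    (hT : T ⊆ S) (hq : Clq G T) (hk : T.card = K) (h1 : t1 ∈ T) (h2 : t2 ∈ T) (h12 : t1 ≠ t2)
    (hQ : Q = (T.erase t1).erase t2) (hwT : w ∉ T) (hw : ∀ q ∈ Q, G.Adj q w)
    (hWS : W ⊆ S) (hdis : ∀ q ∈ Q, q ∉ W) (h1W : t1 ∈ W) (hwW : w ∈ W)
    (hres : (W.card - 1) % K = 1) (hval : Yy G K (bt K) W = 2 * (K : ℤ) - 2) :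
    t2 ∈ W ∧ W ∪ Q = S := by
  have hQT : ∀ q ∈ Q, q ∈ T ∧ q ≠ t1 ∧ q ≠ t2 := by
    intro q hq'
    rw [hQ] at hq'
    exact ⟨(mem_erase.1 (mem_erase.1 hq').2).2, (mem_erase.1 (mem_erase.1 hq').2).1,
      (mem_erase.1 hq').1⟩
  have hQc : Q.card = K - 2 := by
    rw [hQ, card_erase_of_mem (mem_erase.2 ⟨h12.symm, h2⟩), card_erase_of_mem h1, hk]
    omega
  have hQcl : Clq G Q := fun a ha b hb => hq a (hQT a ha).1 b (hQT b hb).1
  have hw1 : w ≠ t1 := fun h => hwT (h ▸ h1)
  have hw2 : w ≠ t2 := fun h => hwT (h ▸ h2)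
  have hWpos : 0 < W.card := card_pos.2 ⟨t1, h1W⟩
  obtain ⟨q, hqW⟩ : ∃ q, W.card - 1 = K * q + 1 := by
    refine ⟨(W.card - 1) / K, ?_⟩
    have := Nat.div_add_mod (W.card - 1) K
    omega
  have hQS : Q ⊆ S := fun a ha => hT (hQT a ha).1
  have hdWQ : Disjoint W Q := by
    rw [disjoint_left]
    exact fun a ha hb => hdis a hb ha
  have hbW : bt K (W.card - 1) = 2 * (q : ℤ) + 2 := by
    rw [hqW, bt_add (by omega) q 1 (by omega), vt_one]
  have hdfW : df G K W = 2 * (K : ℤ) - 2 + 2 * q + 2 := by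
    unfold Yy at hval
    rw [hbW] at hval
    linarith
  have hKz : (7 : ℤ) ≤ K := by exact_mod_cast hK
  by_cases ht2 : t2 ∈ W
  · refine ⟨ht2, ?_⟩
    by_contra hne
    have hc : (W ∪ Q).card = W.card + (K - 2) := by
      rw [card_union_of_disjoint hdWQ, hQc]
    have hbig := hY4 (W ∪ Q) (union_subset hWS hQS) hne (by
      have : Q.card ≤ (W ∪ Q).card := card_le_card subset_union_right
      have h3 : 3 ≤ W.card := by
        have : ({t1, t2, w} : Finset V) ⊆ W := by
          intro v hv
          simp only [mem_insert, mem_singleton] at hv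
          rcases hv with rfl | rfl | rfl <;> assumption
        have h4 := card_le_card this
        rwa [card_insert_of_notMem (by simp [h12, hw1.symm]),
          card_insert_of_notMem (by simpa using hw2.symm), card_singleton] at h4
      omega)
    have hb : bt K ((W ∪ Q).card - 1) = 2 * (q : ℤ) + 2 := by
      have : (W ∪ Q).card - 1 = K * q + (K - 1) := by omega
      rw [this, bt_add (by omega) q (K - 1) (by omega), vt_last (by omega)]
    have hp : 3 * Q.card ≤ pr G Q W := pr_ge 3 fun a ha =>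
      dg_three h1W ht2 hwW h12 hw1.symm hw2.symm (hq a (hQT a ha).1 t1 h1 (hQT a ha).2.1)
        (hq a (hQT a ha).1 t2 h2 (hQT a ha).2.2) (hw a ha)
    have hp' : (3 : ℤ) * ((K : ℤ) - 2) ≤ pr G Q W := by
      have : ((3 * Q.card : ℕ) : ℤ) ≤ pr G Q W := by exact_mod_cast hp
      rw [hQc] at this
      push_cast [Nat.cast_sub (show 2 ≤ K by omega)] at this
      linarith
    have hd := df_union G K hdWQ
    rw [pr_clq hQcl, hQc, hdfW] at hd
    push_cast [Nat.cast_sub (show 2 ≤ K by omega)] at hd
    unfold Yy at hbig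
    rw [hb, hd] at hbig
    nlinarith
  · exfalso
    set X := insert t2 Q with hX
    have ht2Q : t2 ∉ Q := fun h => (hQT t2 h).2.2 rfl
    have hXc : X.card = K - 1 := by
      rw [hX, card_insert_of_notMem ht2Q, hQc]
      omega
    have hXcl : Clq G X := by
      intro a ha b hb hab
      refine hq a ?_ b ?_ hab
      · rcases mem_insert.1 ha with rfl | h
        · exact h2
        · exact (hQT a h).1
      · rcases mem_insert.1 hb with rfl | h
        · exact h2
        · exact (hQT b h).1
    have hXS : X ⊆ S := insert_subset (hT h2) hQS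
    have hdWX : Disjoint W X := by
      rw [disjoint_left]
      intro a ha hb
      rcases mem_insert.1 hb with rfl | h
      · exact ht2 ha
      · exact hdis a h ha
    have hc : (W ∪ X).card = W.card + (K - 1) := by
      rw [card_union_of_disjoint hdWX, hXc]
    have hne : W ∪ X ≠ S := by
      intro h
      have e1 : S.card - 1 = K * (q + 1) := by
        rw [← h, hc, mul_add]
        omega
      rw [e1, Nat.mul_mod_right] at hr
      omega
    have hbig := hY4 (W ∪ X) (union_subset hWS hXS) hne (by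
      have h3 : 2 ≤ W.card := by
        have : ({t1, w} : Finset V) ⊆ W := by
          intro v hv
          simp only [mem_insert, mem_singleton] at hv
          rcases hv with rfl | rfl <;> assumption
        have h4 := card_le_card this
        rwa [card_insert_of_notMem (by simpa using hw1.symm), card_singleton] at h4
      omega)
    have hb : bt K ((W ∪ X).card - 1) = 2 * ((q : ℤ) + 1) + ((K : ℤ) - 1) := by
      have : (W ∪ X).card - 1 = K * (q + 1) + 0 := by
        rw [hc, mul_add]
        omega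
      rw [this, bt_add (by omega) (q + 1) 0 (by omega), Pool.Agent.OW.vt_zero]
      push_cast
      ring
    have hp : (K - 1) + (K - 2) ≤ pr G X W := by
      rw [pr_sum, hX, sum_insert ht2Q]
      have e1 : 1 ≤ dg G W t2 := dg_one h1W (hq t2 h2 t1 h1 h12.symm)
      have e2 : 2 * Q.card ≤ ∑ a ∈ Q, dg G W a := by
        rw [← pr_sum]
        exact pr_ge 2 fun a ha => dg_two h1W hwW hw1.symm
          (hq a (hQT a ha).1 t1 h1 (hQT a ha).2.1) (hw a ha)
      rw [hQc] at e2
      omega
    have hp' : (2 : ℤ) * K - 3 ≤ pr G X W := by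
      have : (((K - 1) + (K - 2) : ℕ) : ℤ) ≤ pr G X W := by exact_mod_cast hp
      push_cast [Nat.cast_sub (show 2 ≤ K by omega), Nat.cast_sub (show 1 ≤ K by omega)] at this
      linarith
    have hd := df_union G K hdWX
    rw [pr_clq hXcl, hXc, hdfW] at hd
    push_cast [Nat.cast_sub (show 1 ≤ K by omega)] at hd
    unfold Yy at hbig
    rw [hb, hd] at hbig
    nlinarith

end Pool.Agent.OW28
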