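import Pool.Agent.Lib_helper28.OW.S4c
import Pool.Agent.Lib_helper63.OW.P2
import Pool.Agent.Lib_helper25.OW.T3
import Pool.Agent.Lib_helper92.OW.Lp

/-! S4, part d: the residue `K - 1` is impossible. -/

set_option autoImplicit false
set_option linter.unusedSectionVars false
set_option linter.unusedVariables false

open scoped Classical
open Finset
open Pool.Agent.O2 Pool.Agent.O3

namespace Pool.Agent.OW28

open Pool.Agent.OW (df Yy IH AE bd bt vt mg Pair Step gain Lt)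
open Pool.Agent.OW.S5 (T5 Tgt PS)

variable {V : Type}

/-- the package of a low vertex with two non-adjacent neighbours `x, y` -/
structure PK (K : ℕ) (G : SimpleGraph V) (S : Finset V) (x y : V) (W T : Finset V) : Prop where
  sub : W ⊆ S
  hx : x ∈ W
  hy : y ∈ W
  low : ∀ v ∈ S, dg G S v = K → G.Adj v x → G.Adj v y → v ∉ W
  col : ∀ φ : V → Fin K, PC G W φ → φ x ≠ φ y
  three : ∀ φ : V → Fin K, PC G W φ → ((bd G S W).image φ).card = 3
  res : (W.card - 1) % K = 1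
  val : Yy G K (bt K) W = 2 * (K : ℤ) - 2
  TW : T ⊆ W
  cl : Clq G T
  Tc : T.card = K
  xT : x ∉ T
  yT : y ∉ T
  dgT : ∀ t ∈ T, dg G W t = K

/-- a vertex which is not in the boundary has the same degree in `S` -/
theorem dg_not_bd {G : SimpleGraph V} {S W : Finset V} (h : W ⊆ S) {t : V} (ht : t ∈ W)
    (hb : t ∉ bd G S W) : dg G S t = dg G W t := by
  unfold dg
  congr 1
  ext y
  simp only [mem_filter]
  constructor
  · rintro ⟨h1, h2⟩
    refine ⟨?_, h2⟩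
    by_contra hy
    exact hb (mem_filter.2 ⟨ht, y, mem_sdiff.2 ⟨h1, hy⟩, h2⟩)
  · rintro ⟨h1, h2⟩
    exact ⟨h h1, h2⟩

/-- 4.6: the residue `K - 1` is impossible -/
theorem last_core {K : ℕ} (hK : 7 ≤ K) {G : SimpleGraph V} {S : Finset V} (hc : CrOn G S K)
    (hr : (S.card - 1) % K = K - 1) (ha : Add1 G S K) (hce : NoCE G S K)
    (hY4 : ∀ R ⊆ S, R ≠ S → K + 1 ≤ R.card → 4 ≤ Yy G K (bt K) R)
    (hlow : ∃ u ∈ S, dg G S u = K ∧ ∃ x ∈ S, ∃ y ∈ S, G.Adj u x ∧ G.Adj u y ∧ x ≠ y ∧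
      ¬ G.Adj x y)
    (hP : ∀ u ∈ S, dg G S u = K → ∀ x ∈ S, ∀ y ∈ S, G.Adj u x → G.Adj u y → x ≠ y →
      ¬ G.Adj x y → ∃ W T, PK K G S x y W T) : False := by
  obtain ⟨u, hu, hud, x, hx, y, hy, hux, huy, hxy, hnad⟩ := hlow
  obtain ⟨W, T, P⟩ := hP u hu hud x hx y hy hux huy hxy hnad
  have huW : u ∉ W := P.low u hu hud hux huy
  have hWS : W ≠ S := fun h => huW (h ▸ hu)
  set B := bd G S W with hB
  have hxB : x ∈ B := mem_filter.2 ⟨P.hx, u, mem_sdiff.2 ⟨hu, huW⟩, hux.symm⟩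
  have hyB : y ∈ B := mem_filter.2 ⟨P.hy, u, mem_sdiff.2 ⟨hu, huW⟩, huy.symm⟩
  obtain ⟨φ, hφ⟩ : ∃ φ : V → Fin K, PC G W φ := (cb_fin (by omega)).1 (hc.sub P.sub hWS)
  have hTS : T ⊆ S := P.TW.trans P.sub
  have hlowT : ∀ t ∈ T, t ∉ B → dg G S t = K := fun t ht hb => by
    rw [dg_not_bd P.sub (P.TW ht) hb]
    exact P.dgT t ht
  have hD3 : (T ∩ B).card ≤ 3 := by
    rw [← P.three φ hφ]
    have h1 : ((T ∩ B).image φ).card = (T ∩ B).card := by
      apply card_image_of_injOn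
      intro a ha' b hb he
      by_contra hab
      have ha1 := (mem_inter.1 (mem_coe.1 ha')).1
      have hb1 := (mem_inter.1 (mem_coe.1 hb)).1
      exact hφ a (P.TW ha1) b (P.TW hb1) (P.cl a ha1 b hb1 hab) he
    rw [← h1]
    exact card_le_card (image_subset_image inter_subset_right)
  have hD2 : 2 ≤ (T ∩ B).card := by
    refine (two_high (by omega) hc ha hce hTS P.cl P.Tc).trans (card_le_card fun t ht => ?_)
    have h := mem_filter.1 ht
    refine mem_inter.2 ⟨h.1, ?_⟩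
    by_contra hb
    exact h.2 (hlowT t h.1 hb)
  have hTB : (T \ B).Nonempty := by
    rw [← card_pos]
    have e := card_sdiff_add_card_inter T B
    have := P.Tc
    omega
  obtain ⟨t0, ht0⟩ := hTB
  have ht0T := (mem_sdiff.1 ht0).1
  have ht0B := (mem_sdiff.1 ht0).2
  obtain ⟨w, hwm, hw⟩ := common_nbr (by omega) hc ha hTS P.cl P.Tc
    ⟨t0, ht0T, hlowT t0 ht0T ht0B⟩
  have hwS := (mem_sdiff.1 hwm).1
  have hwT := (mem_sdiff.1 hwm).2
  have hw' : ∀ t ∈ T, t ∉ B → G.Adj t w := fun t ht hb => hw t ht (hlowT t ht hb)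
  have hwW : w ∈ W := by
    by_contra h
    exact ht0B (mem_filter.2 ⟨P.TW ht0T, w, mem_sdiff.2 ⟨hwS, h⟩, hw' t0 ht0T ht0B⟩)
  by_cases hD : (T ∩ B).card = 3
  · exact no_three hK P.TW P.cl P.Tc P.dgT hxB hyB P.xT P.yT hw' hwW hwT P.three P.col
      ⟨φ, hφ⟩ hD
  -- two boundary vertices
  obtain ⟨t1, t2, h12, hDe⟩ := card_eq_two.1 (show (T ∩ B).card = 2 by omega)
  have h1m : t1 ∈ T ∩ B := by rw [hDe]; simp
  have h2m : t2 ∈ T ∩ B := by rw [hDe]; simp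
  have h1T := (mem_inter.1 h1m).1
  have h2T := (mem_inter.1 h2m).1
  set Q := (T.erase t1).erase t2 with hQ
  have hQm : ∀ q ∈ Q, q ∈ T ∧ q ≠ t1 ∧ q ≠ t2 := by
    intro q hq
    have h2 := mem_erase.1 hq
    have h3 := mem_erase.1 h2.2
    exact ⟨h3.2, h3.1, h2.1⟩
  have hQB : ∀ q ∈ Q, q ∉ B := by
    intro q hq hb
    obtain ⟨g1, g2, g3⟩ := hQm q hq
    have : q ∈ T ∩ B := mem_inter.2 ⟨g1, hb⟩
    rw [hDe] at this
    simp only [mem_insert, mem_singleton] at this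
    rcases this with h | h
    · exact g2 h
    · exact g3 h
  have hQl : ∀ q ∈ Q, dg G S q = K := fun q hq => hlowT q (hQm q hq).1 (hQB q hq)
  have hQw : ∀ q ∈ Q, G.Adj q w := fun q hq => hw' q (hQm q hq).1 (hQB q hq)
  have hnon : ¬ G.Adj w t1 := by
    intro hadj
    have h1 := hce T hTS P.cl P.Tc w hwS hwT
    have h2 : (T.filter fun t => ¬ G.Adj w t) ⊆ {t2} := by
      intro t ht
      have ht' := mem_filter.1 ht
      rw [mem_singleton]
      by_contra hne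
      have hne1 : t ≠ t1 := by
        rintro rfl
        exact ht'.2 hadj
      exact ht'.2 (hQw t (mem_erase.2 ⟨hne, mem_erase.2 ⟨hne1, ht'.1⟩⟩)).symm
    have h3 := card_le_card h2
    rw [card_singleton] at h3
    omega
  have hQc : Q.card = K - 2 := by
    rw [hQ, card_erase_of_mem (mem_erase.2 ⟨h12.symm, h2T⟩), card_erase_of_mem h1T, P.Tc]
    omega
  obtain ⟨q0, hq0⟩ : Q.Nonempty := card_pos.1 (by omega)
  have hw1 : t1 ≠ w := fun h => hwT (h ▸ h1T)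
  have hadj1 : ∀ q ∈ Q, G.Adj q t1 := fun q hq =>
    P.cl q (hQm q hq).1 t1 h1T (hQm q hq).2.1
  obtain ⟨W', T', P'⟩ := hP q0 (hTS (hQm q0 hq0).1) (hQl q0 hq0) t1 (hTS h1T) w hwS
    (hadj1 q0 hq0) (hQw q0 hq0) hw1 (fun h => hnon h.symm)
  have hQW' : ∀ q ∈ Q, q ∉ W' := fun q hq =>
    P'.low q (hTS (hQm q hq).1) (hQl q hq) (hadj1 q hq) (hQw q hq)
  obtain ⟨-, hU⟩ := count_split hK hr hY4 hTS P.cl P.Tc h1T h2T h12 hQ hwT hQw P'.sub hQW'
    P'.hx P'.hy P'.res P'.val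
  have hlow' : ∀ t ∈ T', t ≠ t2 → dg G S t = K := by
    intro t ht hne
    rw [← P'.dgT t ht]
    apply dg_not_bd P'.sub (P'.TW ht)
    intro hb
    obtain ⟨-, q, hq, hadj⟩ := mem_filter.1 hb
    obtain ⟨hqS, hqW⟩ := mem_sdiff.1 hq
    rw [← hU] at hqS
    have hqQ : q ∈ Q := (mem_union.1 hqS).resolve_left hqW
    have htQ : t ∉ Q := fun h => hQW' t h (P'.TW ht)
    have ht1 : t ≠ t1 := fun h => P'.xT (h ▸ ht)
    have htT : t ∉ T := fun h => htQ (mem_erase.2 ⟨hne, mem_erase.2 ⟨ht1, h⟩⟩)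
    have : t = w := out_uniq hTS P.cl P.Tc (by omega) (hQm q hqQ).1 (hQl q hqQ)
      (P'.sub (P'.TW ht)) hwS htT hwT hadj.symm (hQw q hqQ)
    exact P'.yT (this ▸ ht)
  have h2h := two_high (by omega) hc ha hce (P'.TW.trans P'.sub) P'.cl P'.Tc
  have h3 : (T'.filter fun t => dg G S t ≠ K) ⊆ {t2} := by
    intro t ht
    have ht' := mem_filter.1 ht
    rw [mem_singleton]
    by_contra hne
    exact ht'.2 (hlow' t ht'.1 hne)
  have h4 := card_le_card h3
  rw [card_singleton] at h4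
  omega

/-- the package of two non-adjacent neighbours of a low vertex -/
theorem pk_exists {K : ℕ} (hK : 7 ≤ K) {G : SimpleGraph V} {S : Finset V} (hc : CrOn G S K)
    (hI : IH K (bt K) S.card) (hbig : 2 ≤ Yy G K (bt K) S) (T : T5 K (bt K))
    (F1 : ∀ m t s : ℕ, 1 ≤ s → s ≤ K → s ≤ t →
      bt K m + bt K t + 2 ≤ bt K (m + t + 1 - s) + s * ((K : ℤ) + 2 - s))
    (F2w : ∀ m s : ℕ, 2 ≤ s → s ≤ K → K ≤ m → m < S.card - 1 →
      (K : ℤ) + 1 + bt K (m - 1) + bt K (S.card - 1 - m + s - 1) ≤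
        bt K (S.card - 1) + s * ((K : ℤ) + 2 - s) + 2)
    (F2e : ∀ m s : ℕ, 2 ≤ s → s ≤ K → K ≤ m → m < S.card - 1 → ¬ (m % K = 1 ∧ s = 3) →
      (K : ℤ) + 1 + bt K (m - 1) + bt K (S.card - 1 - m + s - 1) ≤
        bt K (S.card - 1) + s * ((K : ℤ) + 2 - s))
    (F3 : ∀ m a s : ℕ, 2 ≤ s → s ≤ K → 1 ≤ a → K ≤ m → m + a < S.card - 1 →
      (K : ℤ) + 1 + bt K (m - 1) + bt K (a + s - 1) <
        bt K (m + a) + s * ((K : ℤ) + 2 - s) + Lt K ((m + a) % K))
    (F8 : ∀ m : ℕ, m % K = 1 → bt K (m - 1) - bt K m + ((K : ℤ) + 1) = 2 * K - 2)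
    (hL : ∀ R ⊆ S, R ≠ S → K + 1 ≤ R.card → Lt K ((R.card - 1) % K) ≤ Yy G K (bt K) R)
    (hY4 : ∀ R ⊆ S, R ≠ S → K + 1 ≤ R.card → 4 ≤ Yy G K (bt K) R)
    {u x y : V} (hu : u ∈ S) (hd : dg G S u = K) (hx : x ∈ S) (hy : y ∈ S)
    (hux : G.Adj u x) (huy : G.Adj u y) (hne : x ≠ y) (hnad : ¬ G.Adj x y) :
    ∃ W T, PK K G S x y W T := by
  obtain ⟨W, hP, huW, hlow, hcm, hres, hdf, hdfm, hstep⟩ :=
    Pool.Agent.OW.pair_pack hc hI (by omega) hbig F1 F2w F2e F3 F8 hL hu hd.le hx hy hux huy hne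
      hnad
  have hWc := hP.card_ge
  have hcW := hP.card
  have hlt := hP.lt
  have e1 : (W.erase y).card - 1 = W.card - 2 := by omega
  have hd0 : K ∣ (W.erase y).card - 1 := by
    rw [e1]
    refine ⟨(W.card - 1) / K, ?_⟩
    have := Nat.div_add_mod (W.card - 1) K
    omega
  have hTg : Tgt K (bt K) (mg G x y) (W.erase y) := by
    refine ⟨hP.cr, hd0, ?_⟩
    unfold Yy
    rw [e1, hdfm]
    ring
  have hI' : IH K (bt K) ((W.erase y).card + 1) := fun V' G' S' h1 h2 =>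
    hI V' G' S' h1 (by omega)
  obtain ⟨Q, hQ, hQc, hQq, hQd⟩ := Pool.Agent.OW.S5.lemmaT T hI' hTg hP.hxe (by
    intro R hR hY
    by_contra hxR
    obtain ⟨h2, h3⟩ := Tgt.gap T hI' hTg hR
    have hdv : K ∣ R.card - 1 := by
      by_contra h
      have := h3 h
      have hKz : (7 : ℤ) ≤ K := by exact_mod_cast hK
      linarith
    have hRc : 2 ≤ R.card := by
      obtain ⟨p, hp, q, hq, hpq, -⟩ := hR.non
      exact one_lt_card.2 ⟨p, hp, q, hq, hpq⟩
    have hRK : K + 1 ≤ R.card := by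
      have := Nat.le_of_dvd (by omega) hdv
      omega
    have hRW : R ⊆ W := hR.sub.trans (erase_subset _ _)
    have hYR : Yy G K (bt K) R = Yy (mg G x y) K (bt K) R := by
      unfold Yy df
      have : pr G R R = pr (mg G x y) R R := by
        rw [pr_sum, pr_sum]
        refine sum_congr rfl fun a ha => ?_
        unfold dg
        congr 1
        ext b
        simp only [mem_filter]
        have hax : a ≠ x := by
          rintro rfl
          exact hxR ha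
        have hbx : b ∈ R → b ≠ x := by
          rintro hb rfl
          exact hxR hb
        constructor
        · rintro ⟨hb, hab⟩
          exact ⟨hb, (Pool.Agent.OW.mg_adj_of_ne hax (hbx hb)).2 hab⟩
        · rintro ⟨hb, hab⟩
          exact ⟨hb, (Pool.Agent.OW.mg_adj_of_ne hax (hbx hb)).1 hab⟩
      rw [this]
    have h4 := hY4 R (hRW.trans hP.sub) (by
      rintro rfl
      exact huW (hRW hu)) hRK
    rw [hYR] at h4
    linarith)
  have hQW : ∀ t ∈ Q, t ∈ W ∧ t ≠ x ∧ t ≠ y := by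
    intro t ht
    have h1 := mem_erase.1 (hQ ht)
    have h2 := mem_erase.1 h1.2
    exact ⟨h2.2, h1.1, h2.1⟩
  refine ⟨W, Q, hP.sub, hP.hx, hP.hy, hlow, fun φ hφ => hP.col hφ, ?_, hres, ?_,
    fun t ht => (hQW t ht).1, ?_, hQc, fun h => (hQW x h).2.1 rfl, fun h => (hQW y h).2.2 rfl, ?_⟩
  · intro φ hφ
    obtain ⟨A, Z, h⟩ := Pool.Agent.OW.step_exists (by omega) hc hP.sub ⟨x, hP.hx⟩ hφ
    obtain ⟨hA, hZ, hg, -, -⟩ := hstep φ A Z h
    have hU : W ∪ A = S := by rw [hA, union_sdiff_of_subset hP.sub]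
    rw [(h.gain_zero_final hg hU).2, hZ]
  · unfold Yy
    rw [hdf]
    ring
  · intro a ha b hb hab
    exact (Pool.Agent.OW.mg_adj_of_ne (hQW a ha).2.1 (hQW b hb).2.1).1 (hQq a ha b hb hab)
  · intro t ht
    obtain ⟨h1, h2, h3⟩ := hQW t ht
    have h4 := Pool.Agent.OW.dg_mg_ne (G := G) (W := W) h2 h3 hP.hx hP.hy hP.ne
    rw [if_neg (fun h => hcm t h1 ⟨h.1.symm, h.2.symm⟩), add_zero] at h4
    rw [← h4, hQd t ht]

end Pool.Agent.OW28
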