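import Pool.Agent.Lib_helper28.OW.S4d
import Pool.Agent.Lib_helper33.OW.NumE

/-! S4, part e: the residue `K - 1`, with the numeric facts. -/

set_option autoImplicit false
set_option linter.unusedSectionVars false
set_option linter.unusedVariables false

open scoped Classical
open Finset
open Pool.Agent.O2 Pool.Agent.O3

namespace Pool.Agent.OW28

open Pool.Agent.OW (df Yy IH AE bd bt vt mg Pair Step gain Lt)
open Pool.Agent.OW.S5 (T5 Tgt PS)

variable {V : Type}

theorem bt_self {K : ℕ} (hK : 0 < K) : bt K K = (K : ℤ) + 1 := by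
  have h := bt_add hK 1 0 hK
  rw [mul_one, add_zero, Pool.Agent.OW.vt_zero] at h
  rw [h]
  push_cast
  ring

/-- the table of `LL` is below that of `Lt` -/
theorem LL_le_Lt {K : ℕ} (hK : 7 ≤ K) (p : ℕ) :
    (Pool.Agent.OW.LL K p : ℤ) ≤ Lt K p := by
  unfold Pool.Agent.OW.LL Lt
  have hKz : (7 : ℤ) ≤ K := by exact_mod_cast hK
  split_ifs <;> omega

/-- the residue `K - 1` is impossible -/
theorem r_last {K : ℕ} (hK : 7 ≤ K) {G : SimpleGraph V} {S : Finset V} (hc : CrOn G S K)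
    (hI : IH K (bt K) S.card) (hbig : 2 ≤ Yy G K (bt K) S) (hr : (S.card - 1) % K = K - 1)
    (hA : AE G S K 1) (hY4 : ∀ R ⊆ S, R ≠ S → K + 1 ≤ R.card → 4 ≤ Yy G K (bt K) R)
    (T : T5 K (bt K)) : False := by
  have hSc := hc.card_ge
  have hcard : K + 1 < S.card := by
    rcases Nat.lt_or_ge (K + 1) S.card with h | h
    · exact h
    · exfalso
      have : S.card - 1 = K := by omega
      rw [this, Nat.mod_self] at hr
      omega
  have hdf : 0 < df G K S := by
    have h1 : bt K (S.card - 1) = 2 * (((S.card - 1) / K : ℕ) : ℤ) + 2 := by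
      have h2 := bt_add (K := K) (by omega) ((S.card - 1) / K) (K - 1) (by omega)
      rw [vt_last (by omega)] at h2
      rw [← h2]
      congr 1
      have := Nat.div_add_mod (S.card - 1) K
      omega
    unfold Yy at hbig
    have h3 : (0 : ℤ) ≤ (((S.card - 1) / K : ℕ) : ℤ) := Int.natCast_nonneg _
    linarith
  have ha : Add1 G S K := Pool.Agent.OW.add1_of_ae (by omega) hA
  have hce : NoCE G S K :=
    Pool.Agent.OW.noCE_of_Y hc (by omega) hcard (bt_self (by omega)) hY4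
  have hmod : ∀ m, m % K = 1 → 1 ≤ m := fun m h => by
    rcases Nat.eq_zero_or_pos m with rfl | h'
    · rw [Nat.zero_mod] at h
      omega
    · exact h'
  have hN : (S.card - 1) % K + 1 = K := by omega
  have F1 : ∀ m t s : ℕ, 1 ≤ s → s ≤ K → s ≤ t →
      bt K m + bt K t + 2 ≤ bt K (m + t + 1 - s) + s * ((K : ℤ) + 2 - s) :=
    fun m t s h1 h2 h3 => Pool.Agent.OW.N_F1 hK m t s h1 h2 h3
  have F2e : ∀ m s : ℕ, 2 ≤ s → s ≤ K → K ≤ m → m < S.card - 1 → ¬ (m % K = 1 ∧ s = 3) →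
      (K : ℤ) + 1 + bt K (m - 1) + bt K (S.card - 1 - m + s - 1) ≤
        bt K (S.card - 1) + s * ((K : ℤ) + 2 - s) := by
    intro m s h1 h2 h3 h4 h5
    exact Pool.Agent.OW.N_F2 hK (S.card - 1) m s h1 h2 (by omega) h4.le
      (Or.inr (Or.inr (Or.inr hN))) (fun h => h5 h.2)
  have F2w : ∀ m s : ℕ, 2 ≤ s → s ≤ K → K ≤ m → m < S.card - 1 →
      (K : ℤ) + 1 + bt K (m - 1) + bt K (S.card - 1 - m + s - 1) ≤
        bt K (S.card - 1) + s * ((K : ℤ) + 2 - s) + 2 := by
    intro m s h1 h2 h3 h4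
    by_cases h5 : m % K = 1 ∧ s = 3
    · obtain ⟨h6, rfl⟩ := h5
      have h7 := (Pool.Agent.OW.N_F2exc hK (S.card - 1) m (by omega) h4.le hN h6).1
      have e : S.card - 1 - m + 3 - 1 = S.card - 1 - m + 2 := by omega
      rw [e]
      push_cast
      linarith
    · have := F2e m s h1 h2 h3 h4 h5
      linarith
  have F3 : ∀ m a s : ℕ, 2 ≤ s → s ≤ K → 1 ≤ a → K ≤ m → m + a < S.card - 1 →
      (K : ℤ) + 1 + bt K (m - 1) + bt K (a + s - 1) <
        bt K (m + a) + s * ((K : ℤ) + 2 - s) + Lt K ((m + a) % K) := by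
    intro m a s h1 h2 h3 h4 h5
    have h6 := Pool.Agent.OW.N_F3 hK m a s h1 h2 (by omega)
    have h7 := LL_le_Lt hK ((m + a) % K)
    linarith
  have F8 : ∀ m : ℕ, m % K = 1 → bt K (m - 1) - bt K m + ((K : ℤ) + 1) = 2 * K - 2 := by
    intro m hm
    have := (Pool.Agent.OW.N_N3 hK m (hmod m hm)).2.1 hm
    linarith
  have hL : ∀ R ⊆ S, R ≠ S → K + 1 ≤ R.card → Lt K ((R.card - 1) % K) ≤ Yy G K (bt K) R := by
    apply Pool.Agent.OW.Lt_le hc hI hK hbig (Or.inr (Or.inr (Or.inr hN))) hY4 F1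
    · intro m s h1 h2 h3 h4 h5
      exact Pool.Agent.OW.N_F4a hK _ m s h1 h2 h3.le h4 h5
    · intro m a s h1 h2 h3 h4 h5
      exact Pool.Agent.OW.N_F4b hK m a s h2 h3 h1 h5
    · intro m s h1 h2 h3 h4
      exact Pool.Agent.OW.N_F4c hK _ m s h2 h3 h4.le h1 (Or.inr (Or.inr (Or.inr hN)))
  exact last_core hK hc hr ha hce hY4 (Pool.Agent.OW.low_pair hc hdf hcard)
    fun u hu hd x hx y hy hux huy hne hnad =>
      pk_exists hK hc hI hbig T F1 F2w F2e F3 F8 hL hY4 hu hd hx hy hux huy hne hnad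

end Pool.Agent.OW28
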